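import Pool.Agent.H33.G.R_seed8.H320R2.PDF3

/-!
Positive density theorem: from the entropy estimate and the recursion to the polynomial decay.
-/

set_option autoImplicit false
set_option linter.unusedVariables false

namespace Pool.Agent.H320R2.PD

open Finset

theorem gam_decay_of (hnn : ∀ A k j : ℕ, 0 ≤ gam A k j) (hle : ∀ A k j : ℕ, gam A k j ≤ 1)
    (hrec : ∀ A k₁ k₂ j : ℕ, gam A (k₁ + k₂) (k₁ + j) ≤ gam A k₁ (k₁ + j) * gam A k₂ j)
    (hgood : ∀ ε : ℝ, 0 < ε → ∃ k₀ : ℕ, ∀ k, k₀ ≤ k → ∀ A, 3 * k ≤ A →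
      ∃ q : ℕ, 11 * k ≤ 10 * q ∧ 10 * q ≤ 12 * k ∧ gam A k q ≤ ε) :
    ∃ C : ℝ, 0 < C ∧ ∀ m : ℕ, 1 ≤ m → ∀ A, 3 * m ≤ A → gam A m m ≤ C / (m : ℝ) ^ 8 := by
  obtain ⟨k0, hk0⟩ := hgood (1 / 13 ^ 8) (by positivity)
  set M0 : ℕ := 2 * k0 + 200 with hM0
  have hanti : ∀ A : ℕ, Antitone (fun m => gam A m m) := by
    intro A
    apply antitone_nat_of_succ_le
    intro m
    have h1 := hrec A 1 m m
    rw [add_comm 1 m] at h1
    refine h1.trans ?_
    exact mul_le_of_le_one_left (hnn A m m) (hle A 1 (m + 1))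
  refine ⟨(M0 : ℝ) ^ 8, by positivity, ?_⟩
  intro m
  induction m using Nat.strong_induction_on with
  | _ m ih =>
    intro hm A hA
    have hmp : (0 : ℝ) < m := by exact_mod_cast hm
    by_cases hlt : m < M0
    · refine (hle A m m).trans ?_
      rw [le_div_iff₀ (by positivity), one_mul]
      gcongr
    · push Not at hlt
      set k := 5 * m / 6 with hk
      obtain ⟨q, hq1, hq2, hq3⟩ := hk0 k (by omega) A (by omega)
      set r := (m + 12) / 13 with hr
      have h1 : gam A m m ≤ gam A q q := hanti A (show q ≤ m by omega)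
      have h2 : gam A q q ≤ gam A k q * gam A (q - k) (q - k) := by
        have := hrec A k (q - k) (q - k)
        rwa [show k + (q - k) = q by omega] at this
      have h3 : gam A (q - k) (q - k) ≤ gam A r r := hanti A (show r ≤ q - k by omega)
      have h4 := ih r (by omega) (by omega) A (by omega)
      have hrp : (0 : ℝ) < r := by exact_mod_cast (by omega : 0 < r)
      have hrm : (m : ℝ) ≤ 13 * r := by exact_mod_cast (by omega : m ≤ 13 * r)
      have h5 : gam A k q * gam A (q - k) (q - k) ≤ 1 / 13 ^ 8 * ((M0 : ℝ) ^ 8 / (r : ℝ) ^ 8) :=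
        mul_le_mul hq3 (h3.trans h4) (hnn _ _ _) (by positivity)
      refine h1.trans (h2.trans (h5.trans ?_))
      rw [div_mul_div_comm, one_mul, ← mul_pow]
      have : (m : ℝ) ^ 8 ≤ (13 * (r : ℝ)) ^ 8 := by gcongr
      gcongr

end Pool.Agent.H320R2.PD
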