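import Mathlib

/-!
The unnormalised conditional entropy functional and its superadditivity.
-/

set_option autoImplicit false
set_option linter.unusedSectionVars false
set_option linter.unusedVariables false

namespace Pool.Agent.H320R2

open Finset Real

/-- unnormalised entropy. -/
noncomputable def Hc {ι : Type*} (s : Finset ι) (f : ι → ℝ) : ℝ :=
  ∑ i ∈ s, negMulLog (f i) - negMulLog (∑ i ∈ s, f i)

lemma psi_add {f F g G : ℝ} (hf : 0 ≤ f) (hF : f ≤ F) (hg : 0 ≤ g) (hG : g ≤ G) :
    (negMulLog f + f * log F) + (negMulLog g + g * log G)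
      ≤ negMulLog (f + g) + (f + g) * log (F + G) := by
  rcases hf.eq_or_lt with h0 | h0
  · subst h0
    rcases hg.eq_or_lt with h1 | h1
    · subst h1; simp
    · have hG0 : 0 < G := h1.trans_le hG
      have : log G ≤ log (F + G) := log_le_log hG0 (by linarith)
      simp only [negMulLog_zero, zero_mul, zero_add]
      nlinarith
  · have hF0 : 0 < F := h0.trans_le hF
    rcases hg.eq_or_lt with h1 | h1
    · subst h1
      have : log F ≤ log (F + G) := log_le_log hF0 (by linarith)
      simp only [negMulLog_zero, zero_mul, add_zero]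
      nlinarith
    · have hG0 : 0 < G := h1.trans_le hG
      have hfg : 0 < f + g := by linarith
      have hFG : 0 < F + G := by linarith
      have e1 : log (F * (f + g) / (f * (F + G))) ≤ F * (f + g) / (f * (F + G)) - 1 :=
        log_le_sub_one_of_pos (by positivity)
      have e2 : log (G * (f + g) / (g * (F + G))) ≤ G * (f + g) / (g * (F + G)) - 1 :=
        log_le_sub_one_of_pos (by positivity)
      have l1 : log (F * (f + g) / (f * (F + G)))
          = log F + log (f + g) - (log f + log (F + G)) := by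
        rw [log_div (by positivity) (by positivity), log_mul (by positivity) (by positivity),
          log_mul (by positivity) (by positivity)]
      have l2 : log (G * (f + g) / (g * (F + G)))
          = log G + log (f + g) - (log g + log (F + G)) := by
        rw [log_div (by positivity) (by positivity), log_mul (by positivity) (by positivity),
          log_mul (by positivity) (by positivity)]
      rw [l1] at e1
      rw [l2] at e2
      have m1 := mul_le_mul_of_nonneg_left e1 h0.le
      have m2 := mul_le_mul_of_nonneg_left e2 h1.le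
      have r1 : f * (F * (f + g) / (f * (F + G)) - 1) = F * (f + g) / (F + G) - f := by
        field_simp
      have r2 : g * (G * (f + g) / (g * (F + G)) - 1) = G * (f + g) / (F + G) - g := by
        field_simp
      have r3 : F * (f + g) / (F + G) + G * (f + g) / (F + G) = f + g := by
        field_simp
      rw [r1] at m1
      rw [r2] at m2
      simp only [negMulLog]
      nlinarith

variable {ι : Type*}

lemma Hc_eq (s : Finset ι) (f : ι → ℝ) :
    Hc s f = ∑ i ∈ s, (negMulLog (f i) + f i * log (∑ i ∈ s, f i)) := by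
  rw [Finset.sum_add_distrib, ← Finset.sum_mul]
  simp only [Hc, negMulLog]
  ring

lemma le_sum_of_mem {s : Finset ι} {f : ι → ℝ} (hf : ∀ i ∈ s, 0 ≤ f i) {i : ι} (hi : i ∈ s) :
    f i ≤ ∑ i ∈ s, f i := Finset.single_le_sum (fun j hj => hf j hj) hi

lemma Hc_add {s : Finset ι} {f g : ι → ℝ} (hf : ∀ i ∈ s, 0 ≤ f i) (hg : ∀ i ∈ s, 0 ≤ g i) :
    Hc s f + Hc s g ≤ Hc s (fun i => f i + g i) := by
  rw [Hc_eq, Hc_eq, Hc_eq, ← Finset.sum_add_distrib]
  apply Finset.sum_le_sum
  intro i hi
  rw [Finset.sum_add_distrib]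
  exact psi_add (hf i hi) (le_sum_of_mem hf hi) (hg i hi) (le_sum_of_mem hg hi)

lemma Hc_zero (s : Finset ι) : Hc s (fun _ => (0 : ℝ)) = 0 := by
  simp [Hc]

lemma Hc_congr {s : Finset ι} {f g : ι → ℝ} (h : ∀ i ∈ s, f i = g i) : Hc s f = Hc s g := by
  unfold Hc
  rw [Finset.sum_congr rfl h, Finset.sum_congr rfl (fun i hi => by rw [h i hi])]

lemma Hc_smul (s : Finset ι) (c : ℝ) (f : ι → ℝ) : Hc s (fun i => c * f i) = c * Hc s f := by
  unfold Hc
  rw [← Finset.mul_sum, negMulLog_mul]
  simp_rw [negMulLog_mul]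
  rw [Finset.sum_add_distrib, ← Finset.sum_mul, ← Finset.mul_sum]
  ring

lemma Hc_sum {κ : Type*} {s : Finset ι} (G : Finset κ) (f : κ → ι → ℝ)
    (hf : ∀ c ∈ G, ∀ i ∈ s, 0 ≤ f c i) :
    ∑ c ∈ G, Hc s (f c) ≤ Hc s (fun i => ∑ c ∈ G, f c i) := by
  classical
  induction G using Finset.induction_on with
  | empty => simp [Hc_zero]
  | insert a G ha ih =>
    rw [Finset.sum_insert ha]
    have h1 := ih (fun c hc => hf c (Finset.mem_insert_of_mem hc))
    have h2 : Hc s (f a) + Hc s (fun i => ∑ c ∈ G, f c i)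
        ≤ Hc s (fun i => f a i + ∑ c ∈ G, f c i) :=
      Hc_add (hf a (Finset.mem_insert_self _ _)) (fun i hi => Finset.sum_nonneg fun c hc =>
        hf c (Finset.mem_insert_of_mem hc) i hi)
    have h3 : Hc s (fun i => ∑ c ∈ insert a G, f c i)
        = Hc s (fun i => f a i + ∑ c ∈ G, f c i) :=
      Hc_congr fun i _ => Finset.sum_insert ha
    rw [h3]
    linarith

lemma Hc_nonneg {s : Finset ι} {f : ι → ℝ} (hf : ∀ i ∈ s, 0 ≤ f i) : 0 ≤ Hc s f := by
  rw [Hc_eq]
  apply Finset.sum_nonneg
  intro i hi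
  have h1 := hf i hi
  have h2 := le_sum_of_mem hf hi
  rcases h1.eq_or_lt with h0 | h0
  · rw [← h0]; simp
  · have : log (f i) ≤ log (∑ i ∈ s, f i) := log_le_log h0 h2
    simp only [negMulLog]
    nlinarith

lemma Hc_le_log_card {s : Finset ι} {f : ι → ℝ} (hf : ∀ i ∈ s, 0 ≤ f i) :
    Hc s f ≤ (∑ i ∈ s, f i) * log s.card := by
  rcases s.eq_empty_or_nonempty with rfl | hs
  · simp [Hc]
  have hc : (0 : ℝ) < s.card := by exact_mod_cast hs.card_pos
  set F := ∑ i ∈ s, f i with hF
  have hF0 : 0 ≤ F := Finset.sum_nonneg hf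
  have key : ∀ i ∈ s, negMulLog (f i) + f i * log F ≤ f i * log s.card + F / s.card - f i := by
    intro i hi
    have h1 := hf i hi
    have h2 : f i ≤ F := le_sum_of_mem hf hi
    rcases h1.eq_or_lt with h0 | h0
    · rw [← h0]; simp; positivity
    · have hFp : 0 < F := h0.trans_le h2
      have e1 : log (F / (f i * s.card)) ≤ F / (f i * s.card) - 1 :=
        log_le_sub_one_of_pos (by positivity)
      rw [log_div (by positivity) (by positivity), log_mul (by positivity) (by positivity)] at e1
      have m1 := mul_le_mul_of_nonneg_left e1 h0.le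
      have r1 : f i * (F / (f i * s.card) - 1) = F / s.card - f i := by field_simp
      rw [r1] at m1
      simp only [negMulLog]
      nlinarith
  rw [Hc_eq]
  calc _ ≤ ∑ i ∈ s, (f i * log s.card + F / s.card - f i) := Finset.sum_le_sum key
    _ = F * log s.card := by
      rw [Finset.sum_sub_distrib, Finset.sum_add_distrib, ← Finset.sum_mul, Finset.sum_const,
        nsmul_eq_mul]
      field_simp
      ring

lemma Hc_equiv {G : Type*} [Fintype G] (σ : G ≃ G) (f : G → ℝ) :
    Hc univ (fun i => f (σ i)) = Hc univ f := by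
  unfold Hc
  rw [Equiv.sum_comp σ f, Equiv.sum_comp σ (fun i => negMulLog (f i))]

/-! ### strong concavity -/

lemma concave_aux : ConcaveOn ℝ (Set.Icc 0 1) (fun x : ℝ => negMulLog x + x ^ 2 / 2) := by
  have hd : ∀ x ∈ Set.Ioo (0 : ℝ) 1,
      HasDerivAt (fun x : ℝ => negMulLog x + x ^ 2 / 2) (-log x - 1 + x) x := by
    intro x hx
    have h1 := hasDerivAt_negMulLog (x := x) hx.1.ne'
    have h2 : HasDerivAt (fun x : ℝ => x ^ 2 / 2) x x := by
      have := (hasDerivAt_pow 2 x).div_const 2
      simpa using this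
    exact h1.add h2
  apply AntitoneOn.concaveOn_of_deriv (convex_Icc 0 1)
  · apply Continuous.continuousOn
    have := continuous_negMulLog
    fun_prop
  · rw [interior_Icc]
    intro x hx
    exact (hd x hx).differentiableAt.differentiableWithinAt
  · rw [interior_Icc]
    intro x hx y hy hxy
    rw [(hd x hx).deriv, (hd y hy).deriv]
    have hy0 := hy.1
    have hx0 := hx.1
    have h1 := one_sub_inv_le_log_of_pos (x := y / x) (by positivity)
    rw [log_div hy0.ne' hx0.ne', inv_div] at h1
    have h2 : y - x ≤ 1 - x / y := by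
      rw [le_sub_iff_add_le, ← le_sub_iff_add_le', div_le_iff₀ hy0]
      nlinarith [hy.2]
    linarith

lemma strong_concave {A B : ℝ} (hA0 : 0 ≤ A) (hA1 : A ≤ 1) (hB0 : 0 ≤ B) (hB1 : B ≤ 1) :
    negMulLog A + negMulLog B + (A - B) ^ 2 / 4 ≤ 2 * negMulLog ((A + B) / 2) := by
  obtain ⟨_, hconc⟩ := concave_aux
  have := hconc (x := A) ⟨hA0, hA1⟩ (y := B) ⟨hB0, hB1⟩ (a := 1 / 2) (b := 1 / 2)
    (by norm_num) (by norm_num) (by norm_num)
  simp only [smul_eq_mul] at this
  have e : 1 / 2 * A + 1 / 2 * B = (A + B) / 2 := by ring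
  rw [e] at this
  nlinarith

/-- gain when adding two distributions of the same mass. -/
lemma Hc_add_gain {s : Finset ι} {a b : ι → ℝ} (ha : ∀ i ∈ s, 0 ≤ a i) (hb : ∀ i ∈ s, 0 ≤ b i)
    {m : ℝ} (hm : 0 < m) (hsa : ∑ i ∈ s, a i = m) (hsb : ∑ i ∈ s, b i = m) :
    Hc s a + Hc s b + (∑ i ∈ s, (a i - b i) ^ 2) / (4 * m) ≤ Hc s (fun i => a i + b i) := by
  have key : ∀ i ∈ s, (negMulLog (a i) + a i * log m) + (negMulLog (b i) + b i * log m)
      + (a i - b i) ^ 2 / (4 * m)
      ≤ negMulLog (a i + b i) + (a i + b i) * log (m + m) := by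
    intro i hi
    have h1 : a i ≤ m := hsa ▸ le_sum_of_mem ha hi
    have h2 : b i ≤ m := hsb ▸ le_sum_of_mem hb hi
    set A := a i / m with hA
    set B := b i / m with hB
    have hAm : a i = m * A := by rw [hA]; field_simp
    have hBm : b i = m * B := by rw [hB]; field_simp
    have sc := strong_concave (A := A) (B := B) (div_nonneg (ha i hi) hm.le)
      ((div_le_one hm).2 h1) (div_nonneg (hb i hi) hm.le) ((div_le_one hm).2 h2)
    have e1 : a i + b i = (2 * m) * ((A + B) / 2) := by rw [hAm, hBm]; ring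
    rw [e1, hAm, hBm, negMulLog_mul m A, negMulLog_mul m B, negMulLog_mul (2 * m), ← two_mul m]
    have e2 : (m * A - m * B) ^ 2 / (4 * m) = m * ((A - B) ^ 2 / 4) := by field_simp
    rw [e2]
    have e3 : negMulLog m = - m * log m := rfl
    have e4 : negMulLog (2 * m) = - (2 * m) * log (2 * m) := rfl
    rw [e3, e4]
    nlinarith [mul_le_mul_of_nonneg_left sc hm.le]
  have hsum := Finset.sum_le_sum key
  rw [Hc_eq, Hc_eq, Hc_eq, hsa, hsb, Finset.sum_add_distrib (f := a) (g := b), hsa, hsb,
    Finset.sum_div, ← Finset.sum_add_distrib, ← Finset.sum_add_distrib]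
  exact hsum

end Pool.Agent.H320R2
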