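import Pool.Agent.H33.G.R_seed8.H320R2.PDRec
import Pool.Agent.H33.G.R_seed8.H320R2.PDGood
import Pool.Agent.H33.G.R_seed8.H320R2.PDDecayOf

/-!
Positive density theorem: decay of the annealed nonuniformity.
-/

set_option autoImplicit false

namespace Pool.Agent.H320R2.PD

theorem gam_decay : ∃ C : ℝ, 0 < C ∧ ∀ m : ℕ, 1 ≤ m → ∀ A, 3 * m ≤ A →
    gam A m m ≤ C / (m : ℝ) ^ 8 :=
  gam_decay_of gam_nonneg gam_le_one gam_rec (fun _ hε => gam_good hε)

end Pool.Agent.H320R2.PD
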