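import Pool.Agent.H33.G.R_seed8.H320R2.PDDefs
import Pool.Agent.H33.G.R_seed8.H320R2.PDWords

/-! Task 8 of the positive density theorem: the potential argument. -/

set_option autoImplicit false

namespace Pool.Agent.H320R2.PD.Cnt

open Finset

/-- the statement of task 5 -/
def QStmt : Prop := ∀ N0 : ℕ, ∃ N1 : ℕ, ∃ C : ℝ, 0 < C ∧ ∀ n : ℕ, N1 ≤ n → ∀ A : ℕ,
    3 * (n + 1) ≤ A → ∀ x : ℤ, ∀ B : ℝ, 0 ≤ B → ∀ f : ℕ → ℝ, (∀ t, 0 ≤ f t ∧ f t ≤ B) →
      U N0 A n x (fun t => ∑ e ∈ Icc 1 A, (1 / 2 : ℝ) ^ e * f (t + e))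
        ≤ U N0 A (n + 1) x f + B * C / (n : ℝ) ^ 3

open scoped Classical in
/-- nice words of length `n` valid at `x` -/
noncomputable def VW (N0 A n : ℕ) (x : ℤ) : Finset (List ℕ) :=
  (FW A n).filter (fun w => Nice N0 w ∧ (3 : ℤ) ^ n ∣ 2 ^ w.sum * x - Wo w)

theorem mem_VW {N0 A n : ℕ} {x : ℤ} {w : List ℕ} : w ∈ VW N0 A n x ↔
    w ∈ FW A n ∧ Nice N0 w ∧ (3 : ℤ) ^ n ∣ 2 ^ w.sum * x - Wo w := by
  classical
  unfold VW
  rw [Finset.mem_filter]

theorem U_eq (N0 A n : ℕ) (x : ℤ) (f : ℕ → ℝ) :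
    U N0 A n x f = ∑ w ∈ VW N0 A n x, (3 : ℝ) ^ n / 2 ^ w.sum * f w.sum := rfl

theorem U_mono {N0 A n : ℕ} {x : ℤ} {f g : ℕ → ℝ}
    (h : ∀ w ∈ VW N0 A n x, f w.sum ≤ g w.sum) : U N0 A n x f ≤ U N0 A n x g := by
  rw [U_eq, U_eq]
  exact Finset.sum_le_sum fun w hw => mul_le_mul_of_nonneg_left (h w hw) (by positivity)

theorem U_add (N0 A n : ℕ) (x : ℤ) (f g : ℕ → ℝ) :
    U N0 A n x (fun t => f t + g t) = U N0 A n x f + U N0 A n x g := by
  rw [U_eq, U_eq, U_eq, ← Finset.sum_add_distrib]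
  exact Finset.sum_congr rfl fun w _ => by ring

theorem U_const (N0 A n : ℕ) (x : ℤ) (c : ℝ) :
    U N0 A n x (fun _ => c) = c * U N0 A n x (fun _ => 1) := by
  rw [U_eq, U_eq, Finset.mul_sum]
  exact Finset.sum_congr rfl fun w _ => by ring

open scoped Classical in
/-- indicator of the window -/
noncomputable def win (Y : ℝ) (n T : ℕ) : ℝ :=
  if Y / 2 < 2 ^ T / 3 ^ n ∧ (2 : ℝ) ^ T / 3 ^ n ≤ Y then 1 else 0

theorem win_nonneg (Y : ℝ) (n T : ℕ) : 0 ≤ win Y n T := by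
  unfold win; split_ifs <;> norm_num

theorem win_le (Y : ℝ) (n T : ℕ) : win Y n T ≤ 1 := by
  unfold win; split_ifs <;> norm_num

/-- expected number of visits to the window in `m` steps -/
noncomputable def Gf (A : ℕ) (Y : ℝ) : ℕ → ℕ → ℕ → ℝ
  | 0, n, T => win Y n T
  | m + 1, n, T => win Y n T + ∑ e ∈ Icc 1 A, (1 / 2 : ℝ) ^ e * Gf A Y m (n + 1) (T + e)

open scoped Classical in
/-- probability to be above `Y / 2` after `m` steps -/
noncomputable def Hf (A : ℕ) (Y : ℝ) : ℕ → ℕ → ℕ → ℝ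
  | 0, n, T => if Y / 2 < 2 ^ T / 3 ^ n then 1 else 0
  | m + 1, n, T => ∑ e ∈ Icc 1 A, (1 / 2 : ℝ) ^ e * Hf A Y m (n + 1) (T + e)

theorem sum_half_le (A : ℕ) : ∑ e ∈ Icc 1 A, (1 / 2 : ℝ) ^ e ≤ 1 := by
  have h : ∀ A : ℕ, ∑ e ∈ Icc 1 A, (1 / 2 : ℝ) ^ e = 1 - (1 / 2) ^ A := by
    intro A
    induction A with
    | zero => simp
    | succ A ih =>
      rw [Finset.sum_Icc_succ_top (by omega), ih]
      ring
  rw [h]
  have : (0 : ℝ) < (1 / 2) ^ A := by positivity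
  linarith

theorem Gf_nonneg (A : ℕ) (Y : ℝ) (m n T : ℕ) : 0 ≤ Gf A Y m n T := by
  induction m generalizing n T with
  | zero => exact win_nonneg _ _ _
  | succ m ih =>
    rw [Gf]
    exact add_nonneg (win_nonneg _ _ _)
      (Finset.sum_nonneg fun e _ => mul_nonneg (by positivity) (ih _ _))

theorem win_le_Gf (A : ℕ) (Y : ℝ) (m n T : ℕ) : win Y n T ≤ Gf A Y m n T := by
  rcases m with _ | m
  · exact le_rfl
  · rw [Gf]
    have : 0 ≤ ∑ e ∈ Icc 1 A, (1 / 2 : ℝ) ^ e * Gf A Y m (n + 1) (T + e) :=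
      Finset.sum_nonneg fun e _ => mul_nonneg (by positivity) (Gf_nonneg _ _ _ _ _)
    linarith

theorem sum_half_mul_le (A : ℕ) (f : ℕ → ℝ) (B : ℝ) (hB : 0 ≤ B) (hf : ∀ e, f e ≤ B) :
    ∑ e ∈ Icc 1 A, (1 / 2 : ℝ) ^ e * f e ≤ B := by
  calc ∑ e ∈ Icc 1 A, (1 / 2 : ℝ) ^ e * f e ≤ ∑ e ∈ Icc 1 A, (1 / 2 : ℝ) ^ e * B :=
        Finset.sum_le_sum fun e _ => mul_le_mul_of_nonneg_left (hf e) (by positivity)
    _ = (∑ e ∈ Icc 1 A, (1 / 2 : ℝ) ^ e) * B := by rw [Finset.sum_mul]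
    _ ≤ 1 * B := mul_le_mul_of_nonneg_right (sum_half_le A) hB
    _ = B := one_mul B

theorem Gf_le (A : ℕ) (Y : ℝ) (m n T : ℕ) : Gf A Y m n T ≤ m + 1 := by
  induction m generalizing n T with
  | zero => rw [Gf]; simpa using win_le Y n T
  | succ m ih =>
    rw [Gf]
    have h1 := win_le Y n T
    have h2 := sum_half_mul_le A (fun e => Gf A Y m (n + 1) (T + e)) (m + 1) (by positivity)
      (fun e => ih _ _)
    push_cast
    linarith

theorem Hf_le (A : ℕ) (Y : ℝ) (m n T : ℕ) : Hf A Y m n T ≤ 1 := by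
  induction m generalizing n T with
  | zero => rw [Hf]; split_ifs <;> norm_num
  | succ m ih =>
    rw [Hf]
    exact sum_half_mul_le A (fun e => Hf A Y m (n + 1) (T + e)) 1 (by norm_num) (fun e => ih _ _)

theorem window_sum (r Y : ℝ) (g u : ℕ → ℝ) (hr : r ≤ Y / 2) (hg : ∀ e, 0 ≤ g e)
    (hh : ∀ e, u e ≤ 1) (h1 : ∀ e, r * 2 ^ e ≤ Y / 2 → u e / 2 ≤ g e)
    (h2 : ∀ e, Y / 2 < r * 2 ^ e → r * 2 ^ e ≤ Y → 1 ≤ g e) (hr0 : 0 ≤ r) (A : ℕ) :
    (r * 2 ^ A ≤ Y / 2 → 0 ≤ ∑ e ∈ Icc 1 A, (1 / 2 : ℝ) ^ e * (g e - u e / 2)) ∧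
      (Y / 2 < r * 2 ^ A →
        (1 / 2 : ℝ) ^ A / 2 ≤ ∑ e ∈ Icc 1 A, (1 / 2 : ℝ) ^ e * (g e - u e / 2)) := by
  induction A with
  | zero =>
    refine ⟨fun _ => by simp, fun h => ?_⟩
    rw [pow_zero, mul_one] at h
    linarith
  | succ A ih =>
    have hp : (0 : ℝ) < (1 / 2) ^ (A + 1) := by positivity
    have hpA : (1 / 2 : ℝ) ^ A = 2 * (1 / 2) ^ (A + 1) := by ring
    have e2 : r * 2 ^ (A + 1) = 2 * (r * 2 ^ A) := by ring
    have hrA : 0 ≤ r * 2 ^ A := by positivity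
    rw [Finset.sum_Icc_succ_top (by omega)]
    refine ⟨fun h => ?_, fun h => ?_⟩
    · have h3 := ih.1 (by linarith)
      have h4 := h1 (A + 1) h
      have h5 : 0 ≤ (1 / 2 : ℝ) ^ (A + 1) * (g (A + 1) - u (A + 1) / 2) :=
        mul_nonneg hp.le (by linarith)
      linarith
    · by_cases hA : r * 2 ^ A ≤ Y / 2
      · have h3 := ih.1 hA
        have h4 := h2 (A + 1) h (by linarith)
        have h6 := hh (A + 1)
        have h5 : (1 / 2 : ℝ) ^ (A + 1) * (1 / 2) ≤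
            (1 / 2 : ℝ) ^ (A + 1) * (g (A + 1) - u (A + 1) / 2) :=
          mul_le_mul_of_nonneg_left (by linarith) hp.le
        linarith
      · have h3 := ih.2 (not_le.1 hA)
        have h4 := hg (A + 1)
        have h6 := hh (A + 1)
        have h5 : (1 / 2 : ℝ) ^ (A + 1) * (-(1 / 2)) ≤
            (1 / 2 : ℝ) ^ (A + 1) * (g (A + 1) - u (A + 1) / 2) :=
          mul_le_mul_of_nonneg_left (by linarith) hp.le
        linarith

theorem GH (A : ℕ) {Y : ℝ} (m n T : ℕ) (hT : (2 : ℝ) ^ T / 3 ^ n ≤ Y / 2) :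
    Hf A Y m n T / 2 ≤ Gf A Y m n T := by
  induction m generalizing n T with
  | zero =>
    rw [Hf, if_neg (not_lt.2 hT)]
    simpa using Gf_nonneg A Y 0 n T
  | succ m ih =>
    set r : ℝ := 2 ^ T / 3 ^ (n + 1) with hr
    have hre : ∀ e : ℕ, r * 2 ^ e = (2 : ℝ) ^ (T + e) / 3 ^ (n + 1) := by
      intro e; rw [hr, pow_add]; ring
    have hr0 : 0 ≤ r := by positivity
    have hr1 : r ≤ Y / 2 := by
      refine le_trans ?_ hT
      rw [hr]
      apply div_le_div_of_nonneg_left (by positivity) (by positivity)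
      exact pow_le_pow_right₀ (by norm_num) (by omega)
    have key := window_sum r Y (fun e => Gf A Y m (n + 1) (T + e))
      (fun e => Hf A Y m (n + 1) (T + e)) hr1 (fun e => Gf_nonneg _ _ _ _ _)
      (fun e => Hf_le _ _ _ _ _)
      (fun e he => ih (n + 1) (T + e) (by rw [← hre]; exact he))
      (fun e he he' => by
        refine le_trans ?_ (win_le_Gf A Y m (n + 1) (T + e))
        unfold win
        rw [if_pos]
        rw [← hre]
        exact ⟨he, he'⟩) hr0 A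
    have key2 : 0 ≤ ∑ e ∈ Icc 1 A, (1 / 2 : ℝ) ^ e *
        (Gf A Y m (n + 1) (T + e) - Hf A Y m (n + 1) (T + e) / 2) := by
      by_cases hA : r * 2 ^ A ≤ Y / 2
      · exact key.1 hA
      · have := key.2 (not_le.1 hA)
        have hp : (0 : ℝ) < (1 / 2) ^ A := by positivity
        linarith
    have key3 : ∑ e ∈ Icc 1 A, (1 / 2 : ℝ) ^ e *
        (Gf A Y m (n + 1) (T + e) - Hf A Y m (n + 1) (T + e) / 2) =
        ∑ e ∈ Icc 1 A, (1 / 2 : ℝ) ^ e * Gf A Y m (n + 1) (T + e) -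
          (∑ e ∈ Icc 1 A, (1 / 2 : ℝ) ^ e * Hf A Y m (n + 1) (T + e)) / 2 := by
      rw [Finset.sum_div, ← Finset.sum_sub_distrib]
      exact Finset.sum_congr rfl fun e _ => by ring
    rw [Hf, Gf]
    have h0 := win_nonneg Y n T
    rw [key3] at key2
    linarith

/-- the potential argument -/
theorem pot {N0 A N1 : ℕ} {x : ℤ} {Y C : ℝ} (hC : 0 ≤ C)
    (hq : ∀ n : ℕ, N1 ≤ n → 3 * (n + 1) ≤ A → ∀ B : ℝ, 0 ≤ B → ∀ f : ℕ → ℝ,
      (∀ t, 0 ≤ f t ∧ f t ≤ B) →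
      U N0 A n x (fun t => ∑ e ∈ Icc 1 A, (1 / 2 : ℝ) ^ e * f (t + e))
        ≤ U N0 A (n + 1) x f + B * C / (n : ℝ) ^ 3) {n0 : ℕ} (hn0 : 1 ≤ n0) {M : ℝ} (m : ℕ) :
    ∀ n : ℕ, n0 ≤ n → N1 ≤ n → 3 * (n + m) ≤ A → (m : ℝ) ≤ M →
      U N0 A n x (Gf A Y m n) ≤ ∑ i ∈ range (m + 1), U N0 A (n + i) x (win Y (n + i)) +
        m * (M * C / (n0 : ℝ) ^ 3) := by
  induction m with
  | zero =>
    intro n _ _ _ _
    simp only [zero_add, range_one, sum_singleton, add_zero, Nat.cast_zero, zero_mul]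
    exact le_rfl
  | succ m ih =>
    intro n h1 h2 h3 h4
    push_cast at h4
    have hM0 : 0 ≤ M := le_trans (by positivity) h4
    have e1 : U N0 A n x (Gf A Y (m + 1) n) = U N0 A n x (win Y n) +
        U N0 A n x (fun t => ∑ e ∈ Icc 1 A, (1 / 2 : ℝ) ^ e * Gf A Y m (n + 1) (t + e)) := by
      rw [← U_add]; rfl
    have e2 := hq n h2 (by omega) M hM0 (Gf A Y m (n + 1))
      (fun t => ⟨Gf_nonneg _ _ _ _ _, (Gf_le _ _ _ _ _).trans h4⟩)
    have e3 := ih (n + 1) (by omega) (by omega) (by omega) (by linarith)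
    have e4 : ∑ i ∈ range (m + 1 + 1), U N0 A (n + i) x (win Y (n + i)) =
        U N0 A n x (win Y n) + ∑ i ∈ range (m + 1), U N0 A (n + 1 + i) x (win Y (n + 1 + i)) := by
      rw [Finset.sum_range_succ', add_comm]
      congr 1
      refine Finset.sum_congr rfl fun i _ => ?_
      rw [show n + (i + 1) = n + 1 + i by ring]
    have e5 : M * C / (n : ℝ) ^ 3 ≤ M * C / (n0 : ℝ) ^ 3 := by
      have hn0' : (0 : ℝ) < n0 := by exact_mod_cast hn0
      have hn' : (n0 : ℝ) ≤ n := by exact_mod_cast h1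
      apply div_le_div_of_nonneg_left (by positivity) (by positivity)
      exact pow_le_pow_left₀ hn0'.le hn' 3
    rw [e1, e4]
    push_cast
    linarith

theorem sum_FW_cons {A n : ℕ} {M : Type*} [AddCommMonoid M] (f : List ℕ → M) :
    ∑ w ∈ FW A (n + 1), f w = ∑ e ∈ Icc 1 A, ∑ w ∈ FW A n, f (e :: w) := by
  rw [FW, Finset.sum_biUnion]
  · refine Finset.sum_congr rfl fun e _ => ?_
    rw [Finset.sum_image]
    intro u _ v _ h
    exact (List.cons.inj h).2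
  · intro e _ e' _ hne
    rw [Function.onFun, Finset.disjoint_left]
    intro w hw hw'
    obtain ⟨u, _, rfl⟩ := Finset.mem_image.1 hw
    obtain ⟨v, _, h⟩ := Finset.mem_image.1 hw'
    exact hne (List.cons.inj h).1.symm

open scoped Classical in
theorem Hf_eq (A : ℕ) (Y : ℝ) (m n T : ℕ) : Hf A Y m n T =
    ∑ v ∈ FW A m, wwt v * (if Y / 2 < (2 : ℝ) ^ (T + v.sum) / 3 ^ (n + m) then 1 else 0) := by
  induction m generalizing n T with
  | zero =>
    rw [Hf, FW, Finset.sum_singleton]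
    simp [wwt]
  | succ m ih =>
    rw [Hf, sum_FW_cons]
    refine Finset.sum_congr rfl fun e _ => ?_
    rw [ih, Finset.mul_sum]
    refine Finset.sum_congr rfl fun v _ => ?_
    rw [List.sum_cons, show T + e + v.sum = T + (e + v.sum) by ring,
      show n + 1 + m = n + (m + 1) by ring, ← mul_assoc]
    congr 1
    unfold wwt
    rw [List.sum_cons, pow_add]

/-- lower bound of the probability to be above `Y / 2` at the end -/
theorem Hf_ge (A : ℕ) (Y : ℝ) (m n T : ℕ) (hA : 2 * m ≤ A) (hm : 89600 ≤ m)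
    (hgood : ∀ t : ℕ, 39 * m ≤ 20 * t → Y / 2 < (2 : ℝ) ^ (T + t) / 3 ^ (n + m)) :
    1 / 2 ≤ Hf A Y m n T := by
  classical
  rw [Hf_eq]
  have h1 := tail A m (show (0 : ℝ) < 1 / 20 by norm_num) (by norm_num)
  have h2 : 2 * Real.exp (-((1 / 20 : ℝ) ^ 2 * m / 32)) ≤ 1 / 4 := by
    have h3 : (7 : ℝ) + 1 ≤ Real.exp 7 := Real.add_one_le_exp 7
    have h4 : Real.exp 7 ≤ Real.exp ((1 / 20 : ℝ) ^ 2 * m / 32) := by
      apply Real.exp_le_exp.2
      have : (89600 : ℝ) ≤ m := by exact_mod_cast hm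
      linarith
    rw [Real.exp_neg]
    have h5 : (Real.exp ((1 / 20 : ℝ) ^ 2 * m / 32))⁻¹ ≤ 8⁻¹ :=
      inv_anti₀ (by norm_num) (by linarith)
    norm_num at h5 ⊢
    linarith
  have h3 : (3 : ℝ) / 4 ≤ ∑ w ∈ FW A m, wwt w := by
    rw [sum_wwt]
    have hA1 : (1 / 2 : ℝ) ^ A ≤ 1 := pow_le_one₀ (by norm_num) (by norm_num)
    have b1 := one_add_mul_le_pow (show (-2 : ℝ) ≤ -(1 / 2) ^ A by linarith) m
    have b2 : (m : ℝ) * (1 / 2) ^ A ≤ 1 / 4 := by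
      have c1 : (1 / 2 : ℝ) ^ A ≤ (1 / 2) ^ (2 * m) :=
        pow_le_pow_of_le_one (by norm_num) (by norm_num) hA
      have c2 : (m : ℝ) ≤ 2 ^ m := by exact_mod_cast (Nat.lt_two_pow_self (n := m)).le
      have c3 : (1 / 2 : ℝ) ^ m ≤ (1 / 2) ^ 2 :=
        pow_le_pow_of_le_one (by norm_num) (by norm_num) (by omega)
      calc (m : ℝ) * (1 / 2) ^ A ≤ 2 ^ m * (1 / 2) ^ (2 * m) := by
            apply mul_le_mul c2 c1 (by positivity) (by positivity)
        _ = (1 / 2) ^ m := by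
            rw [two_mul, pow_add, ← mul_assoc, ← mul_pow]
            norm_num
        _ ≤ (1 / 2) ^ 2 := c3
        _ = 1 / 4 := by norm_num
    calc (3 : ℝ) / 4 ≤ 1 + (m : ℝ) * (-(1 / 2) ^ A) := by linarith
      _ ≤ (1 + -(1 / 2) ^ A) ^ m := b1
      _ = (1 - (1 / 2) ^ A) ^ m := by ring
  have h4 : ∑ w ∈ FW A m, wwt w ≤ ∑ w ∈ (FW A m).filter (fun w =>
        (1 / 20 : ℝ) * m ≤ |(w.sum : ℝ) - 2 * m|), wwt w +
      ∑ v ∈ FW A m, wwt v * (if Y / 2 < (2 : ℝ) ^ (T + v.sum) / 3 ^ (n + m) then 1 else 0) := by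
    rw [Finset.sum_filter, ← Finset.sum_add_distrib]
    refine Finset.sum_le_sum fun w _ => ?_
    have hw := wwt_pos w
    by_cases hb : (1 / 20 : ℝ) * m ≤ |(w.sum : ℝ) - 2 * m|
    · rw [if_pos hb]
      split_ifs <;> linarith
    · rw [if_neg hb, if_pos]
      · linarith
      · apply hgood
        rw [not_le, abs_lt] at hb
        have : (39 : ℝ) * m ≤ 20 * w.sum := by linarith
        exact_mod_cast this
  have h5 : ∑ w ∈ (FW A m).filter (fun w =>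
        (1 / 20 : ℝ) * m ≤ |(w.sum : ℝ) - 2 * m|), wwt w ≤ 1 / 4 := by
    refine le_trans (le_of_eq ?_) (h1.trans h2)
    refine Finset.sum_congr ?_ fun _ _ => rfl
    ext w
    simp only [Finset.mem_filter]
  linarith

/-- offsets of nice words -/
theorem Wo_take_le {N0 : ℕ} {w : List ℕ} (hw : ∀ e ∈ w, 1 ≤ e) (hn : Nice N0 w) (i : ℕ)
    (hi : i ≤ w.length) :
    (Wo (w.take i) : ℝ) ≤ 5 * 2 ^ N0 * (1 - (4 / 5) ^ i) * 2 ^ (w.take i).sum := by
  induction i with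
  | zero => simp [Wo]
  | succ i ih =>
    have ih' := ih (by omega)
    set u := w.take i with hu
    have hi' : i < w.length := by omega
    set e := w[i] with he
    have ht : w.take (i + 1) = u ++ [e] := by
      rw [hu, he, List.take_succ_eq_append_getElem hi']
    have hlen : u.length = i := by rw [hu, List.length_take]; omega
    have hsum : (u ++ [e]).sum = u.sum + e := by simp
    have hWo : (Wo (u ++ [e]) : ℝ) = 2 ^ e * Wo u + 3 ^ i := by
      rw [Wo_append, hlen]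
      simp [Wo]
    rw [ht, hWo, hsum]
    -- bound of `3^i`
    have hk : (3 : ℝ) ^ i ≤ 2 ^ N0 * (4 / 5) ^ i * 2 ^ (u.sum + e) := by
      by_cases hN : N0 ≤ i + 1
      · have h1 := (hn (i + 1) hN hi).1
        rw [ht, hsum] at h1
        have h2 : ((3 : ℝ) ^ i) ^ 20 ≤ ((4 / 5) ^ i * 2 ^ (u.sum + e)) ^ 20 := by
          have a1 : ((2 : ℝ) ^ (u.sum + e)) ^ 20 ≥ 2 ^ (39 * i) := by
            rw [← pow_mul]
            exact pow_le_pow_right₀ (by norm_num) (by omega)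
          have a2 : ((3 : ℝ) ^ i) ^ 20 = (3 ^ 20) ^ i := by rw [← pow_mul, ← pow_mul, mul_comm]
          have a3 : (((4 : ℝ) / 5) ^ i) ^ 20 = ((4 / 5) ^ 20) ^ i := by
            rw [← pow_mul, ← pow_mul, mul_comm]
          have a4 : (2 : ℝ) ^ (39 * i) = (2 ^ 39) ^ i := by rw [← pow_mul]
          rw [mul_pow, a2, a3]
          calc ((3 : ℝ) ^ 20) ^ i ≤ ((4 / 5) ^ 20 * 2 ^ 39) ^ i :=
                pow_le_pow_left₀ (by positivity) (by norm_num) i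
            _ = ((4 / 5) ^ 20) ^ i * 2 ^ (39 * i) := by rw [mul_pow, a4]
            _ ≤ ((4 / 5) ^ 20) ^ i * (2 ^ (u.sum + e)) ^ 20 :=
                mul_le_mul_of_nonneg_left a1 (by positivity)
        have h3 : (3 : ℝ) ^ i ≤ (4 / 5) ^ i * 2 ^ (u.sum + e) :=
          le_of_pow_le_pow_left₀ (by norm_num) (by positivity) h2
        have h4 : (1 : ℝ) ≤ 2 ^ N0 := one_le_pow₀ (by norm_num)
        calc (3 : ℝ) ^ i ≤ 1 * ((4 / 5) ^ i * 2 ^ (u.sum + e)) := by linarith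
          _ ≤ 2 ^ N0 * ((4 / 5) ^ i * 2 ^ (u.sum + e)) :=
              mul_le_mul_of_nonneg_right h4 (by positivity)
          _ = _ := by ring
      · rw [not_le] at hN
        have h1 : i ≤ u.sum := by
          have : ∀ v : List ℕ, (∀ e ∈ v, 1 ≤ e) → v.length ≤ v.sum := by
            intro v
            induction v with
            | nil => simp
            | cons a v ihv =>
              intro hv
              rw [List.length_cons, List.sum_cons]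
              have := ihv (fun e he => hv e (List.mem_cons_of_mem _ he))
              have := hv a List.mem_cons_self
              omega
          have h2 := this u (fun e he => hw e (List.mem_of_mem_take he))
          omega
        have h2 : (2 : ℝ) ^ i ≤ 2 ^ (u.sum + e) := pow_le_pow_right₀ (by norm_num) (by omega)
        have h3 : (2 : ℝ) ^ i ≤ 2 ^ N0 := pow_le_pow_right₀ (by norm_num) (by omega)
        calc (3 : ℝ) ^ i ≤ (2 * (4 / 5) * 2) ^ i := pow_le_pow_left₀ (by norm_num) (by norm_num) i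
          _ = 2 ^ i * (4 / 5) ^ i * 2 ^ i := by rw [mul_pow, mul_pow]
          _ ≤ 2 ^ N0 * (4 / 5) ^ i * 2 ^ (u.sum + e) := by
              apply mul_le_mul _ h2 (by positivity) (by positivity)
              exact mul_le_mul_of_nonneg_right h3 (by positivity)
    have h5 : (2 : ℝ) ^ e * Wo u ≤ 2 ^ e * (5 * 2 ^ N0 * (1 - (4 / 5) ^ i) * 2 ^ u.sum) :=
      mul_le_mul_of_nonneg_left ih' (by positivity)
    calc (2 : ℝ) ^ e * Wo u + 3 ^ i ≤ 2 ^ e * (5 * 2 ^ N0 * (1 - (4 / 5) ^ i) * 2 ^ u.sum) +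
          2 ^ N0 * (4 / 5) ^ i * 2 ^ (u.sum + e) := by linarith
      _ = 5 * 2 ^ N0 * (1 - (4 / 5) ^ (i + 1)) * 2 ^ (u.sum + e) := by
          rw [pow_add (2 : ℝ) u.sum e, pow_succ]; ring

theorem Wo_nice_le {N0 : ℕ} {w : List ℕ} (hw : ∀ e ∈ w, 1 ≤ e) (hn : Nice N0 w) :
    (Wo w : ℝ) ≤ 5 * 2 ^ N0 * 2 ^ w.sum := by
  have h := Wo_take_le hw hn w.length le_rfl
  rw [List.take_length] at h
  refine h.trans ?_
  apply mul_le_mul_of_nonneg_right _ (by positivity)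
  have h1 : (0 : ℝ) ≤ (4 / 5) ^ w.length := by positivity
  have h2 : (0 : ℝ) ≤ 5 * 2 ^ N0 := by positivity
  nlinarith

/-- arithmetic of the horizon -/
theorem horizon (n0 : ℕ) : (3 : ℝ) ^ (180 * n0 + 160) ≤ 2 ^ (292 * n0 + 272) := by
  have h1 : (3 : ℝ) ^ 5 ≤ 2 ^ 8 := by norm_num
  calc (3 : ℝ) ^ (180 * n0 + 160) = (3 ^ 5) ^ (36 * n0 + 32) := by
        rw [← pow_mul]; congr 1; ring
    _ ≤ (2 ^ 8) ^ (36 * n0 + 32) := pow_le_pow_left₀ (by positivity) h1 _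
    _ = 2 ^ (288 * n0 + 256) := by rw [← pow_mul]; congr 1; ring
    _ ≤ 2 ^ (292 * n0 + 272) := pow_le_pow_right₀ (by norm_num) (by omega)

theorem above {n0 T t : ℕ} {Y : ℝ} (hY : Y / 2 < 4 ^ (n0 + 1)) (hT : n0 ≤ T)
    (ht : 39 * (8 * (n0 + 1)) ≤ 20 * t) :
    Y / 2 < (2 : ℝ) ^ (T + t) / 3 ^ (n0 + 8 * (n0 + 1)) := by
  refine lt_of_lt_of_le hY ?_
  rw [le_div_iff₀ (by positivity)]
  refine le_of_pow_le_pow_left₀ (n := 20) (by norm_num) (by positivity) ?_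
  have h1 : (4 : ℝ) = 2 ^ 2 := by norm_num
  calc ((4 : ℝ) ^ (n0 + 1) * 3 ^ (n0 + 8 * (n0 + 1))) ^ 20
      = 2 ^ (40 * n0 + 40) * 3 ^ (180 * n0 + 160) := by
        rw [h1, mul_pow, ← pow_mul, ← pow_mul, ← pow_mul]
        congr 2 <;> ring
    _ ≤ 2 ^ (40 * n0 + 40) * 2 ^ (292 * n0 + 272) :=
        mul_le_mul_of_nonneg_left (horizon n0) (by positivity)
    _ = 2 ^ (332 * n0 + 312) := by
        have e : 40 * n0 + 40 + (292 * n0 + 272) = 332 * n0 + 312 := by ring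
        rw [← pow_add, e]
    _ ≤ 2 ^ (20 * (T + t)) := pow_le_pow_right₀ (by norm_num) (by omega)
    _ = (2 ^ (T + t)) ^ 20 := by rw [← pow_mul, mul_comm (T + t) 20]

theorem below {n0 T : ℕ} {Y : ℝ} (hY : (4 : ℝ) ^ n0 ≤ Y / 2) (hT : 20 * T ≤ 41 * n0) :
    (2 : ℝ) ^ T / 3 ^ n0 ≤ Y / 2 := by
  refine le_trans ?_ hY
  rw [div_le_iff₀ (by positivity)]
  refine le_of_pow_le_pow_left₀ (n := 20) (by norm_num) (by positivity) ?_
  calc ((2 : ℝ) ^ T) ^ 20 = 2 ^ (20 * T) := by rw [← pow_mul, mul_comm T 20]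
    _ ≤ 2 ^ (41 * n0) := pow_le_pow_right₀ (by norm_num) hT
    _ = (2 ^ 41) ^ n0 := by rw [← pow_mul]
    _ ≤ ((4 * 3) ^ 20) ^ n0 := pow_le_pow_left₀ (by positivity) (by norm_num) n0
    _ = ((4 * 3) ^ n0) ^ 20 := by rw [← pow_mul, ← pow_mul, mul_comm 20 n0]
    _ = (4 ^ n0 * 3 ^ n0) ^ 20 := by rw [mul_pow]

theorem mul_aux {Y : ℝ} (hY : 0 < Y) (s : ℝ) : Y * ((2 / Y) * s) = 2 * s := by field_simp

/-- the number of nice valid words in the window, uniformly in the root -/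
theorem count_window (quenched : QStmt) {N0 N : ℕ} (hN : N0 ≤ N) :
    ∃ K : ℝ, 2 ≤ K ∧ ∀ x : ℤ,
      (∀ A n : ℕ, N ≤ n → 3 * n ≤ A → (1 / 4 : ℝ) ≤ U N0 A n x (fun _ => 1)) →
      ∀ Y : ℝ, K ≤ Y → ∃ A : ℕ, ∃ S : Finset (List ℕ),
      (∀ w ∈ S, w ∈ VW N0 A w.length x ∧ N ≤ w.length ∧
        (w.length : ℝ) ≤ 8 * (1 + Real.log Y) ∧
        Y / 2 < (2 : ℝ) ^ w.sum / 3 ^ w.length ∧ (2 : ℝ) ^ w.sum / 3 ^ w.length ≤ Y) ∧
        Y / 64 ≤ S.card := by
  classical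
  obtain ⟨N1, C, hC, hq⟩ := quenched N0
  -- how large `n0` must be
  set K0 : ℕ := max (max N N1) (max 11200 (⌈8704 * C⌉₊)) with hK0
  refine ⟨2 * 4 ^ K0, by
    have : (1 : ℝ) ≤ 4 ^ K0 := one_le_pow₀ (by norm_num)
    linarith, fun x h Y hY => ?_⟩
  have hY2 : (4 : ℝ) ^ K0 ≤ Y / 2 := by linarith
  have hYpos : 0 < Y := by
    have : (0 : ℝ) < 4 ^ K0 := by positivity
    linarith
  set n0 : ℕ := Nat.log 4 ⌊Y / 2⌋₊ with hn0
  have hfl : 4 ^ K0 ≤ ⌊Y / 2⌋₊ := Nat.le_floor (by exact_mod_cast hY2)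
  have hfl0 : ⌊Y / 2⌋₊ ≠ 0 := by
    have : 0 < 4 ^ K0 := by positivity
    omega
  have hK0n : K0 ≤ n0 := Nat.le_log_of_pow_le (by norm_num) hfl
  have hlow : (4 : ℝ) ^ n0 ≤ Y / 2 := by
    have h1 : 4 ^ n0 ≤ ⌊Y / 2⌋₊ := Nat.pow_log_le_self 4 hfl0
    have h2 : ((4 ^ n0 : ℕ) : ℝ) ≤ (⌊Y / 2⌋₊ : ℝ) := by exact_mod_cast h1
    have h3 : ((⌊Y / 2⌋₊ : ℕ) : ℝ) ≤ Y / 2 := Nat.floor_le (by linarith)
    push_cast at h2
    linarith
  have hup : Y / 2 < (4 : ℝ) ^ (n0 + 1) := by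
    have h1 : ⌊Y / 2⌋₊ < 4 ^ (n0 + 1) := Nat.lt_pow_succ_log_self (by norm_num) _
    have h2 : ((⌊Y / 2⌋₊ : ℕ) : ℝ) + 1 ≤ (4 : ℝ) ^ (n0 + 1) := by exact_mod_cast h1
    have h3 := Nat.lt_floor_add_one (Y / 2)
    linarith
  have k1 : N ≤ n0 := ((le_max_left _ _).trans (le_max_left _ _)).trans hK0n
  have k2 : N1 ≤ n0 := ((le_max_right _ _).trans (le_max_left _ _)).trans hK0n
  have k3 : 11200 ≤ n0 := ((le_max_left _ _).trans (le_max_right _ _)).trans hK0n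
  have k4 : 8704 * C ≤ n0 := by
    have h1 : ⌈8704 * C⌉₊ ≤ n0 := ((le_max_right _ _).trans (le_max_right _ _)).trans hK0n
    exact (Nat.le_ceil _).trans (by exact_mod_cast h1)
  have hlogn : 4 / 3 * (n0 : ℝ) ≤ Real.log Y := by
    have h1 : (4 : ℝ) ^ n0 ≤ Y := by linarith
    have h2 := Real.log_le_log (by positivity) h1
    rw [Real.log_pow] at h2
    have h3 : (4 : ℝ) / 3 ≤ Real.log 4 := by
      have h4 : (4 : ℝ) = 2 ^ 2 := by norm_num
      rw [h4, Real.log_pow]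
      have := Real.log_two_gt_d9
      push_cast
      linarith
    have h5 : (n0 : ℝ) * (4 / 3) ≤ n0 * Real.log 4 := mul_le_mul_of_nonneg_left h3 (by positivity)
    linarith
  set m : ℕ := 8 * (n0 + 1) with hm
  set A : ℕ := 3 * (n0 + m) with hA
  have hpot := pot (N0 := N0) (A := A) (N1 := N1) (x := x) (Y := Y) (C := C) hC.le
    (fun n hn hA B hB f hf => hq n hn A hA x B hB f hf) (n0 := n0) (by omega) (M := m) m n0 le_rfl
    k2 le_rfl le_rfl
  -- the potential at the start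
  have hstart : (1 : ℝ) / 16 ≤ U N0 A n0 x (Gf A Y m n0) := by
    have h1 : U N0 A n0 x (fun _ => (1 / 4 : ℝ)) ≤ U N0 A n0 x (Gf A Y m n0) := by
      apply U_mono
      intro w hw
      obtain ⟨hwF, hwn, _⟩ := mem_VW.1 hw
      obtain ⟨hwl, hwe⟩ := mem_FW.1 hwF
      have h2 := hwn n0 (hN.trans k1) hwl.ge
      rw [← hwl, List.take_length, hwl] at h2
      have h3 := GH A (Y := Y) m n0 w.sum (below hlow h2.2)
      have h4 := Hf_ge A Y m n0 w.sum (by omega) (by omega)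
        (fun t ht => above hup (sum_le_of_mem hwF).1 ht)
      linarith
    rw [U_const] at h1
    have h2 := h A n0 k1 (by omega)
    linarith
  have herr : (m : ℝ) * (m * C / (n0 : ℝ) ^ 3) ≤ 1 / 32 := by
    have hn0' : (1 : ℝ) ≤ n0 := by
      have : 1 ≤ n0 := by omega
      exact_mod_cast this
    have hm' : (m : ℝ) ≤ 16 * n0 := by
      rw [hm]; push_cast; linarith
    have h1 : (m : ℝ) * m ≤ 256 * n0 ^ 2 := by nlinarith [show (0 : ℝ) ≤ m by positivity]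
    calc (m : ℝ) * (m * C / (n0 : ℝ) ^ 3) = (m * m) * C / n0 ^ 3 := by ring
      _ ≤ (256 * n0 ^ 2) * C / n0 ^ 3 := by
          apply div_le_div_of_nonneg_right _ (by positivity)
          exact mul_le_mul_of_nonneg_right h1 hC.le
      _ = 256 * C / n0 := by field_simp
      _ ≤ 1 / 32 := by
          rw [div_le_iff₀ (by positivity)]
          linarith
  have hsum : (1 : ℝ) / 32 ≤ ∑ i ∈ range (m + 1), U N0 A (n0 + i) x (win Y (n0 + i)) := by
    linarith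
  -- the words in the window
  set Sn : ℕ → Finset (List ℕ) := fun i => (VW N0 A (n0 + i) x).filter
    (fun w => win Y (n0 + i) w.sum = 1) with hSn
  have hlenS : ∀ i, ∀ w ∈ Sn i, w.length = n0 + i := by
    intro i w hw
    have h1 := (Finset.mem_filter.1 hw).1
    exact (mem_FW.1 (mem_VW.1 h1).1).1
  have hSi : ∀ i, U N0 A (n0 + i) x (win Y (n0 + i)) ≤ (2 / Y) * (Sn i).card := by
    intro i
    rw [U_eq]
    calc ∑ w ∈ VW N0 A (n0 + i) x, (3 : ℝ) ^ (n0 + i) / 2 ^ w.sum * win Y (n0 + i) w.sum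
        ≤ ∑ w ∈ VW N0 A (n0 + i) x, if win Y (n0 + i) w.sum = 1 then 2 / Y else 0 := by
          refine Finset.sum_le_sum fun w _ => ?_
          by_cases hw : win Y (n0 + i) w.sum = 1
          · rw [if_pos hw, hw, mul_one]
            unfold win at hw
            split_ifs at hw with h1
            · rw [div_le_div_iff₀ (by positivity) hYpos]
              have h2 := h1.1
              rw [lt_div_iff₀ (by positivity)] at h2
              linarith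
            · norm_num at hw
          · rw [if_neg hw]
            unfold win at hw ⊢
            split_ifs at hw ⊢ with h1
            · exact absurd rfl hw
            · simp
      _ = (2 / Y) * (Sn i).card := by
          rw [← Finset.sum_filter, Finset.sum_const, nsmul_eq_mul, mul_comm]
  refine ⟨A, (range (m + 1)).biUnion Sn, ?_, ?_⟩
  · intro w hw
    obtain ⟨i, hi0, hi⟩ := Finset.mem_biUnion.1 hw
    have h1 := Finset.mem_filter.1 hi
    rw [hlenS i w hi]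
    have h2 := h1.2
    unfold win at h2
    split_ifs at h2 with h3
    · refine ⟨h1.1, by omega, ?_, h3.1, h3.2⟩
      rw [Finset.mem_range] at hi0
      have h4 : n0 + i ≤ 9 * n0 + 8 := by omega
      have h5 : ((n0 + i : ℕ) : ℝ) ≤ 9 * n0 + 8 := by exact_mod_cast h4
      linarith
    · norm_num at h2
  · rw [Finset.card_biUnion]
    · push_cast
      have h1 : (1 : ℝ) / 32 ≤ (2 / Y) * ∑ i ∈ range (m + 1), ((Sn i).card : ℝ) := by
        rw [Finset.mul_sum]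
        exact hsum.trans (Finset.sum_le_sum fun i _ => hSi i)
      have h2 : Y * (1 / 32) ≤ Y * ((2 / Y) * ∑ i ∈ range (m + 1), ((Sn i).card : ℝ)) :=
        mul_le_mul_of_nonneg_left h1 hYpos.le
      have h3 : Y * ((2 / Y) * ∑ i ∈ range (m + 1), ((Sn i).card : ℝ)) =
          2 * ∑ i ∈ range (m + 1), ((Sn i).card : ℝ) := mul_aux hYpos _
      linarith
    · intro i _ j _ hij
      rw [Function.onFun, Finset.disjoint_left]
      intro w hw hw'
      have h1 := hlenS i w hw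
      have h2 := hlenS j w hw'
      omega

/-- uniform form: the constants do not depend on the root -/
theorem count_uniform (quenched : QStmt) {N0 N : ℕ} (hN : N0 ≤ N) :
    ∃ K : ℝ, 2 ≤ K ∧ ∀ x : ℤ,
      (∀ A n : ℕ, N ≤ n → 3 * n ≤ A → (1 / 4 : ℝ) ≤ U N0 A n x (fun _ => 1)) →
      ∀ Y : ℝ, K ≤ Y → ∃ S : Finset (List ℕ),
      (∀ w ∈ S, (∀ e ∈ w, 1 ≤ e) ∧ (3 : ℤ) ^ w.length ∣ 2 ^ w.sum * x - Wo w ∧
        N ≤ w.length ∧ Nice N0 w ∧ (w.length : ℝ) ≤ 8 * (1 + Real.log Y) ∧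
        20 * w.sum ≤ 41 * w.length ∧
        Y / 2 * 3 ^ w.length < (2 : ℝ) ^ w.sum ∧ (2 : ℝ) ^ w.sum ≤ Y * 3 ^ w.length ∧
        (Wo w : ℝ) ≤ 5 * 2 ^ N0 * 2 ^ w.sum) ∧ Y / 64 ≤ S.card := by
  obtain ⟨K, hK2, hK⟩ := count_window quenched hN
  refine ⟨K, hK2, fun x h Y hY => ?_⟩
  obtain ⟨A, S, hS, hc⟩ := hK x h Y hY
  refine ⟨S, fun w hw => ?_, hc⟩
  obtain ⟨h1, h2, h3, h4, h5⟩ := hS w hw
  obtain ⟨a1, a2, a3⟩ := mem_VW.1 h1
  have h6 : ∀ e ∈ w, 1 ≤ e := fun e he => ((mem_FW.1 a1).2 e he).1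
  have h7 := (a2 w.length (hN.trans h2) le_rfl).2
  rw [List.take_length] at h7
  exact ⟨h6, a3, h2, a2, h3, h7, (lt_div_iff₀ (by positivity)).1 h4,
    (div_le_iff₀ (by positivity)).1 h5, Wo_nice_le h6 a2⟩

theorem count_nodes_of (quenched : QStmt) {N0 N : ℕ} (hN : N0 ≤ N) (x : ℤ)
    (h : ∀ A n : ℕ, N ≤ n → 3 * n ≤ A → (1 / 4 : ℝ) ≤ U N0 A n x (fun _ => 1)) :
    ∃ c : ℝ, 0 < c ∧ ∃ X0 : ℝ, ∀ X : ℝ, X0 ≤ X → ∃ S : Finset (List ℕ),
      (∀ w ∈ S, (∀ e ∈ w, 1 ≤ e) ∧ (3 : ℤ) ^ w.length ∣ 2 ^ w.sum * x - Wo w ∧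
        (|(2 ^ w.sum * x - Wo w) / 3 ^ w.length| : ℤ) ≤ X) ∧ c * X ≤ S.card := by
  obtain ⟨K, _, hK⟩ := count_uniform quenched hN
  set D : ℝ := |(x : ℝ)| + 5 * 2 ^ N0 with hD
  have hD0 : 0 < D := by positivity
  refine ⟨1 / (64 * D), by positivity, K * D, fun X hX => ?_⟩
  obtain ⟨S, hS, hc⟩ := hK x h (X / D) (by rw [le_div_iff₀ hD0]; exact hX)
  refine ⟨S, fun w hw => ?_, ?_⟩
  · obtain ⟨h6, h5, _, _, _, _, _, h9, e4⟩ := hS w hw
    refine ⟨h6, h5, ?_⟩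
    obtain ⟨q, hq⟩ := h5
    have h7 : (2 ^ w.sum * x - (Wo w : ℤ)) / 3 ^ w.length = q := by
      rw [hq]
      exact Int.mul_ediv_cancel_left q (by positivity)
    rw [h7]
    have h8 : ((3 : ℝ) ^ w.length) * |(q : ℝ)| ≤ D * 2 ^ w.sum := by
      have e1 : ((3 : ℝ) ^ w.length) * q = 2 ^ w.sum * x - Wo w := by exact_mod_cast hq.symm
      have e2 : ((3 : ℝ) ^ w.length) * |(q : ℝ)| = |(2 : ℝ) ^ w.sum * x - Wo w| := by
        rw [← e1, abs_mul, abs_of_nonneg (by positivity : (0 : ℝ) ≤ 3 ^ w.length)]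
      rw [e2]
      have e3 := abs_sub ((2 : ℝ) ^ w.sum * x) (Wo w : ℝ)
      rw [abs_mul, abs_of_nonneg (by positivity : (0 : ℝ) ≤ 2 ^ w.sum),
        abs_of_nonneg (by positivity : (0 : ℝ) ≤ (Wo w : ℝ))] at e3
      rw [hD]
      calc _ ≤ (2 : ℝ) ^ w.sum * |(x : ℝ)| + Wo w := e3
        _ ≤ (2 : ℝ) ^ w.sum * |(x : ℝ)| + 5 * 2 ^ N0 * 2 ^ w.sum := by linarith
        _ = _ := by ring
    have h10 : ((3 : ℝ) ^ w.length) * |(q : ℝ)| ≤ (3 : ℝ) ^ w.length * X := by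
      calc _ ≤ D * 2 ^ w.sum := h8
        _ ≤ D * (X / D * 3 ^ w.length) := mul_le_mul_of_nonneg_left h9 hD0.le
        _ = _ := by field_simp
    have h11 : |(q : ℝ)| ≤ X := le_of_mul_le_mul_left h10 (by positivity)
    push_cast
    exact h11
  · calc 1 / (64 * D) * X = X / D / 64 := by field_simp
      _ ≤ S.card := hc

end Pool.Agent.H320R2.PD.Cnt
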