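import Pool.Agent.H33.G.R_seed8.H320R2.PDDefs

/-!
Task 2 (FFUN) of the positive density theorem: the functional `F3` and the convolution inequality
(helper923).
-/

set_option autoImplicit false

namespace Pool.Agent.H320R2.PD

open Finset

theorem F3_num_nonneg (a b c : ℝ) : 0 ≤ a ^ 2 + b ^ 2 + c ^ 2 - a * b - b * c - c * a := by
  nlinarith [sq_nonneg (a - b), sq_nonneg (b - c), sq_nonneg (c - a)]

theorem F3_nonneg {a b c : ℝ} (ha : 0 ≤ a) (hb : 0 ≤ b) (hc : 0 ≤ c) : 0 ≤ F3 a b c := by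
  unfold F3
  exact div_nonneg (F3_num_nonneg a b c) (by linarith)

theorem F3_zero : F3 0 0 0 = 0 := by
  unfold F3; simp

theorem F3_le {a b c : ℝ} (ha : 0 ≤ a) (hb : 0 ≤ b) (hc : 0 ≤ c) : F3 a b c ≤ a + b + c := by
  unfold F3
  have hs : 0 ≤ a + b + c := by linarith
  apply div_le_of_le_mul₀ hs hs
  nlinarith [mul_nonneg ha hb, mul_nonneg hb hc, mul_nonneg hc ha]

theorem F3_smul (r a b c : ℝ) : F3 (r * a) (r * b) (r * c) = r * F3 a b c := by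
  unfold F3
  rcases eq_or_ne r 0 with hr | hr
  · subst hr; simp
  · have h1 : (r * a) ^ 2 + (r * b) ^ 2 + (r * c) ^ 2 - r * a * (r * b) - r * b * (r * c)
        - r * c * (r * a) = r * (r * (a ^ 2 + b ^ 2 + c ^ 2 - a * b - b * c - c * a)) := by ring
    have h2 : r * a + r * b + r * c = r * (a + b + c) := by ring
    rw [h1, h2, mul_div_mul_left _ _ hr, mul_div_assoc]

theorem F3_rot (a b c : ℝ) : F3 b c a = F3 a b c := by
  unfold F3
  congr 1 <;> ring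

theorem F3_swap (a b c : ℝ) : F3 a c b = F3 a b c := by
  unfold F3
  congr 1 <;> ring

theorem F3_add {a b c a' b' c' : ℝ} (ha : 0 ≤ a) (hb : 0 ≤ b) (hc : 0 ≤ c) (ha' : 0 ≤ a')
    (hb' : 0 ≤ b') (hc' : 0 ≤ c') : F3 (a + a') (b + b') (c + c') ≤ F3 a b c + F3 a' b' c' := by
  rcases eq_or_lt_of_le (show 0 ≤ a + b + c by linarith) with h0 | h0
  · have h1 : a = 0 := by linarith
    have h2 : b = 0 := by linarith
    have h3 : c = 0 := by linarith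
    subst h1 h2 h3
    simp [F3_zero]
  rcases eq_or_lt_of_le (show 0 ≤ a' + b' + c' by linarith) with h0' | h0'
  · have h1 : a' = 0 := by linarith
    have h2 : b' = 0 := by linarith
    have h3 : c' = 0 := by linarith
    subst h1 h2 h3
    simp [F3_zero]
  unfold F3
  have hs : 0 < a + a' + (b + b') + (c + c') := by linarith
  rw [div_add_div _ _ h0.ne' h0'.ne', div_le_div_iff₀ hs (mul_pos h0 h0')]
  have key := F3_num_nonneg ((a' + b' + c') * a - (a + b + c) * a')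
    ((a' + b' + c') * b - (a + b + c) * b') ((a' + b' + c') * c - (a + b + c) * c')
  nlinarith [key]

theorem F3_sum {ι : Type*} (s : Finset ι) (a b c : ι → ℝ) (ha : ∀ i ∈ s, 0 ≤ a i)
    (hb : ∀ i ∈ s, 0 ≤ b i) (hc : ∀ i ∈ s, 0 ≤ c i) :
    F3 (∑ i ∈ s, a i) (∑ i ∈ s, b i) (∑ i ∈ s, c i) ≤ ∑ i ∈ s, F3 (a i) (b i) (c i) := by
  classical
  induction s using Finset.induction_on with
  | empty => simp [F3_zero]
  | insert x s hx ih =>
    rw [sum_insert hx, sum_insert hx, sum_insert hx, sum_insert hx]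
    have h1 : ∀ i ∈ s, i ∈ insert x s := fun i hi => mem_insert_of_mem hi
    refine (F3_add (ha x (mem_insert_self _ _)) (hb x (mem_insert_self _ _))
      (hc x (mem_insert_self _ _)) (sum_nonneg fun i hi => ha i (h1 i hi))
      (sum_nonneg fun i hi => hb i (h1 i hi)) (sum_nonneg fun i hi => hc i (h1 i hi))).trans ?_
    gcongr
    exact ih (fun i hi => ha i (h1 i hi)) (fun i hi => hb i (h1 i hi)) (fun i hi => hc i (h1 i hi))

/-- multiplicativity under convolution on `ℤ/3` -/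
theorem F3_conv (a b c a' b' c' : ℝ) :
    F3 (a * a' + b * c' + c * b') (a * b' + b * a' + c * c') (a * c' + b * b' + c * a')
      = F3 a b c * F3 a' b' c' := by
  unfold F3
  rw [div_mul_div_comm]
  congr 1 <;> ring

/-! ### the counting function -/

section
variable {ι : Type*} {s : Finset ι} {wt : ι → ℝ} {v : ι → ℤ}

theorem cnt_nonneg (h : ∀ i ∈ s, 0 ≤ wt i) (M : ℕ) (c : ℤ) : 0 ≤ cnt s wt v M c := by
  unfold cnt
  refine sum_nonneg fun i hi => ?_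
  split_ifs
  · exact h i hi
  · exact le_rfl

theorem cnt_congr (M : ℕ) {c c' : ℤ} (hc : (3 : ℤ) ^ M ∣ c - c') :
    cnt s wt v M c = cnt s wt v M c' := by
  unfold cnt
  refine sum_congr rfl fun i _ => ?_
  have : ((3 : ℤ) ^ M ∣ v i - c) ↔ ((3 : ℤ) ^ M ∣ v i - c') := by
    have e : v i - c' = (v i - c) + (c - c') := by ring
    rw [e, Int.dvd_add_left hc]
  simp only [this]

/-- residues: exactly one class -/
theorem sum_indicator (N : ℕ) (hN : 0 < N) (z : ℤ) (r : ℝ) :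
    ∑ a ∈ range N, (if (N : ℤ) ∣ z - (a : ℤ) then r else 0) = r := by
  classical
  have hz0 : 0 ≤ z % (N : ℤ) := Int.emod_nonneg _ (by exact_mod_cast hN.ne')
  have hz1 : z % (N : ℤ) < N := Int.emod_lt_of_pos _ (by exact_mod_cast hN)
  rw [sum_eq_single ((z % (N : ℤ)).toNat)]
  · rw [if_pos]
    rw [Int.toNat_of_nonneg hz0]
    exact Int.dvd_self_sub_emod
  · intro b hb hne
    rw [if_neg]
    intro hd
    apply hne
    have hb' : (b : ℤ) < N := by exact_mod_cast mem_range.mp hb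
    have h1 : z % (N : ℤ) = (b : ℤ) % (N : ℤ) :=
      Int.emod_eq_emod_iff_emod_sub_eq_zero.mpr (Int.emod_eq_zero_of_dvd hd)
    have h2 : (b : ℤ) % (N : ℤ) = b := Int.emod_eq_of_lt (by positivity) hb'
    rw [h1, h2]
    simp
  · intro hn
    exfalso
    apply hn
    rw [mem_range]
    zify
    rw [Int.toNat_of_nonneg hz0]
    exact hz1

/-- the masses of the classes add up to the total mass -/
theorem sum_cnt (s : Finset ι) (wt : ι → ℝ) (v : ι → ℤ) (M : ℕ) :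
    ∑ c ∈ range (3 ^ M), cnt s wt v M (c : ℤ) = ∑ i ∈ s, wt i := by
  unfold cnt
  rw [sum_comm]
  refine sum_congr rfl fun i _ => ?_
  have := sum_indicator (3 ^ M) (by positivity) (v i) (wt i)
  push_cast at this
  exact this

/-- splitting a class into three -/
theorem cnt_split (s : Finset ι) (wt : ι → ℝ) (v : ι → ℤ) (J : ℕ) (c : ℤ) :
    cnt s wt v J c = cnt s wt v (J + 1) c + cnt s wt v (J + 1) (c + 3 ^ J)
      + cnt s wt v (J + 1) (c + 2 * 3 ^ J) := by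
  unfold cnt
  rw [← sum_add_distrib, ← sum_add_distrib]
  refine sum_congr rfl fun i _ => ?_
  by_cases h : (3 : ℤ) ^ J ∣ v i - c
  · rw [if_pos h]
    obtain ⟨m, hm⟩ := h
    have h3 : (3 : ℤ) ^ J ≠ 0 := by positivity
    have e0 : ((3 : ℤ) ^ (J + 1) ∣ v i - c) ↔ (3 : ℤ) ∣ m := by
      rw [hm, pow_succ, mul_dvd_mul_iff_left h3]
    have e1 : ((3 : ℤ) ^ (J + 1) ∣ v i - (c + 3 ^ J)) ↔ (3 : ℤ) ∣ m - 1 := by
      have : v i - (c + 3 ^ J) = 3 ^ J * (m - 1) := by linear_combination hm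
      rw [this, pow_succ, mul_dvd_mul_iff_left h3]
    have e2 : ((3 : ℤ) ^ (J + 1) ∣ v i - (c + 2 * 3 ^ J)) ↔ (3 : ℤ) ∣ m - 2 := by
      have : v i - (c + 2 * 3 ^ J) = 3 ^ J * (m - 2) := by linear_combination hm
      rw [this, pow_succ, mul_dvd_mul_iff_left h3]
    simp only [e0, e1, e2]
    have h5 : m % 3 = 0 ∨ m % 3 = 1 ∨ m % 3 = 2 := by omega
    rcases h5 with h5 | h5 | h5
    · rw [if_pos (by omega), if_neg (by omega), if_neg (by omega)]; ring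
    · rw [if_neg (by omega), if_pos (by omega), if_neg (by omega)]; ring
    · rw [if_neg (by omega), if_neg (by omega), if_pos (by omega)]; ring
  · rw [if_neg h, if_neg, if_neg, if_neg]
    · simp
    · intro h'
      apply h
      have h6 : (3 : ℤ) ^ J ∣ v i - (c + 2 * 3 ^ J) := (pow_dvd_pow 3 (Nat.le_succ J)).trans h'
      have : v i - c = (v i - (c + 2 * 3 ^ J)) + 3 ^ J * 2 := by ring
      rw [this]
      exact dvd_add h6 (dvd_mul_right _ _)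
    · intro h'
      apply h
      have h6 : (3 : ℤ) ^ J ∣ v i - (c + 3 ^ J) := (pow_dvd_pow 3 (Nat.le_succ J)).trans h'
      have : v i - c = (v i - (c + 3 ^ J)) + 3 ^ J * 1 := by ring
      rw [this]
      exact dvd_add h6 (dvd_mul_right _ _)
    · intro h'
      exact h ((pow_dvd_pow 3 (Nat.le_succ J)).trans h')

theorem Fib_nonneg (v : ι → ℤ) (J : ℕ) (h : ∀ i ∈ s, 0 ≤ wt i) (c : ℤ) : 0 ≤ Fib s wt v J c :=
  F3_nonneg (cnt_nonneg h _ _) (cnt_nonneg h _ _) (cnt_nonneg h _ _)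

theorem Fib_le (v : ι → ℤ) (J : ℕ) (h : ∀ i ∈ s, 0 ≤ wt i) (c : ℤ) :
    Fib s wt v J c ≤ cnt s wt v J c := by
  rw [cnt_split s wt v J c]
  exact F3_le (cnt_nonneg h _ _) (cnt_nonneg h _ _) (cnt_nonneg h _ _)

theorem Gam_nonneg {ι : Type*} {s : Finset ι} {wt : ι → ℝ} (v : ι → ℤ) (J : ℕ)
    (h : ∀ i ∈ s, 0 ≤ wt i) : 0 ≤ Gam s wt v J :=
  sum_nonneg fun _ _ => Fib_nonneg v J h _

theorem Gam_le {ι : Type*} {s : Finset ι} {wt : ι → ℝ} (v : ι → ℤ) (J : ℕ)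
    (h : ∀ i ∈ s, 0 ≤ wt i) : Gam s wt v J ≤ ∑ i ∈ s, wt i := by
  rw [← sum_cnt s wt v J]
  exact sum_le_sum fun _ _ => Fib_le v J h _

/-- `Fib` is periodic -/
theorem Fib_add (s : Finset ι) (wt : ι → ℝ) (v : ι → ℤ) (J : ℕ) (c : ℤ) :
    Fib s wt v J (c + 3 ^ J) = Fib s wt v J c := by
  unfold Fib
  have e1 : cnt s wt v (J + 1) (c + 3 ^ J + 3 ^ J) = cnt s wt v (J + 1) (c + 2 * 3 ^ J) := by
    congr 1; ring
  have e2 : cnt s wt v (J + 1) (c + 3 ^ J + 2 * 3 ^ J) = cnt s wt v (J + 1) c := by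
    apply cnt_congr
    exact ⟨1, by ring⟩
  rw [e1, e2]
  exact F3_rot _ _ _

theorem Fib_congr (s : Finset ι) (wt : ι → ℝ) (v : ι → ℤ) (J : ℕ) {c c' : ℤ}
    (hc : (3 : ℤ) ^ J ∣ c - c') : Fib s wt v J c = Fib s wt v J c' := by
  have hnat : ∀ (n : ℕ) (x : ℤ), Fib s wt v J (x + 3 ^ J * n) = Fib s wt v J x := by
    intro n
    induction n with
    | zero => intro x; simp
    | succ n ih =>
      intro x
      have e : x + 3 ^ J * ((n + 1 : ℕ) : ℤ) = (x + 3 ^ J * n) + 3 ^ J := by push_cast; ring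
      rw [e, Fib_add, ih]
  obtain ⟨m, hm⟩ := hc
  rcases Int.eq_nat_or_neg m with ⟨n, hn | hn⟩
  · have : c = c' + 3 ^ J * n := by rw [← hn]; linear_combination hm
    rw [this, hnat]
  · have : c' = c + 3 ^ J * n := by
      have : (n : ℤ) = -m := by rw [hn]; ring
      rw [this]; linear_combination -hm
    rw [this, hnat]

end

/-- residues mod `3^(J+1)` as pairs -/
theorem sum_indicator2 (J : ℕ) (z : ℤ) (r : ℝ) :
    ∑ a ∈ range (3 ^ J), ∑ e ∈ range 3,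
      (if (3 : ℤ) ^ (J + 1) ∣ z - ((a : ℤ) + (e : ℤ) * 3 ^ J) then r else 0) = r := by
  have h0 := sum_indicator (3 ^ J) (by positivity) z r
  refine Eq.trans ?_ h0
  refine sum_congr rfl fun a _ => ?_
  have h1 := cnt_split ({()} : Finset Unit) (fun _ => r) (fun _ => z) J (a : ℤ)
  unfold cnt at h1
  simp only [sum_singleton] at h1
  push_cast
  rw [h1]
  simp [sum_range_succ]

theorem dvd_split (t k j : ℕ) (a e x y c d : ℤ)
    (hx : (3 : ℤ) ^ (k + j + 1) ∣ x - (a + e * 3 ^ (k + j))) :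
    ((3 : ℤ) ^ (k + j + 1) ∣ 2 ^ t * x + 3 ^ k * y - (c + d * 3 ^ (k + j))) ↔
      ((3 : ℤ) ^ k ∣ c - 2 ^ t * a ∧
        (3 : ℤ) ^ (j + 1) ∣ y - ((c - 2 ^ t * a) / 3 ^ k + 3 ^ j * (d - 2 ^ t * e))) := by
  have h3 : (3 : ℤ) ^ k ≠ 0 := by positivity
  have hk : (3 : ℤ) ^ (k + j + 1) = 3 ^ k * 3 ^ (j + 1) := by rw [← pow_add]; ring_nf
  have hkj : (3 : ℤ) ^ (k + j) = 3 ^ k * 3 ^ j := pow_add _ _ _
  have e1 : 2 ^ t * x + 3 ^ k * y - (c + d * 3 ^ (k + j)) =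
      2 ^ t * (x - (a + e * 3 ^ (k + j))) + (3 ^ k * y - (c - 2 ^ t * a)
        - 3 ^ (k + j) * (d - 2 ^ t * e)) := by ring
  rw [e1, Int.dvd_add_right (hx.mul_left _)]
  constructor
  · intro h
    have hP : (3 : ℤ) ^ k ∣ c - 2 ^ t * a := by
      have h4 : (3 : ℤ) ^ k ∣ 3 ^ k * y - (c - 2 ^ t * a) - 3 ^ (k + j) * (d - 2 ^ t * e) := by
        refine dvd_trans ?_ h
        rw [hk]; exact dvd_mul_right _ _
      have h5 : c - 2 ^ t * a = 3 ^ k * y - 3 ^ k * (3 ^ j * (d - 2 ^ t * e))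
          - (3 ^ k * y - (c - 2 ^ t * a) - 3 ^ (k + j) * (d - 2 ^ t * e)) := by
        rw [hkj]; ring
      rw [h5]
      exact dvd_sub (dvd_sub (dvd_mul_right _ _) (dvd_mul_right _ _)) h4
    refine ⟨hP, ?_⟩
    obtain ⟨b, hb⟩ := hP
    rw [hb, Int.mul_ediv_cancel_left _ h3]
    rw [hb, hk, hkj] at h
    have h6 : 3 ^ k * y - 3 ^ k * b - 3 ^ k * 3 ^ j * (d - 2 ^ t * e) =
        3 ^ k * (y - (b + 3 ^ j * (d - 2 ^ t * e))) := by ring
    rw [h6] at h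
    exact (mul_dvd_mul_iff_left h3).mp h
  · rintro ⟨⟨b, hb⟩, h⟩
    rw [hb, Int.mul_ediv_cancel_left _ h3] at h
    rw [hb, hk, hkj]
    have h6 : 3 ^ k * y - 3 ^ k * b - 3 ^ k * 3 ^ j * (d - 2 ^ t * e) =
        3 ^ k * (y - (b + 3 ^ j * (d - 2 ^ t * e))) := by ring
    rw [h6]
    exact mul_dvd_mul_left _ h

section
variable {ι ι' : Type*} (s : Finset ι) (s' : Finset ι') (wt : ι → ℝ) (wt' : ι' → ℝ)

theorem cnt_prod_aux (v : ι → ℤ) (v' : ι' → ℤ) (t k j : ℕ) (c d : ℤ) :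
    cnt (s ×ˢ s') (fun p => wt p.1 * wt' p.2) (fun p => 2 ^ t * v p.1 + 3 ^ k * v' p.2)
      (k + j + 1) (c + d * 3 ^ (k + j)) =
    ∑ a ∈ range (3 ^ (k + j)), ∑ e ∈ range 3, if (3 : ℤ) ^ k ∣ c - 2 ^ t * (a : ℤ) then
      cnt s wt v (k + j + 1) ((a : ℤ) + (e : ℤ) * 3 ^ (k + j)) *
        cnt s' wt' v' (j + 1) ((c - 2 ^ t * (a : ℤ)) / 3 ^ k + 3 ^ j * (d - 2 ^ t * (e : ℤ)))
      else 0 := by
  classical
  have h1 : cnt (s ×ˢ s') (fun p => wt p.1 * wt' p.2) (fun p => 2 ^ t * v p.1 + 3 ^ k * v' p.2)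
      (k + j + 1) (c + d * 3 ^ (k + j)) = ∑ i ∈ s, ∑ i' ∈ s', ∑ a ∈ range (3 ^ (k + j)),
        ∑ e ∈ range 3, (if (3 : ℤ) ^ (k + j + 1) ∣ v i - ((a : ℤ) + (e : ℤ) * 3 ^ (k + j)) then
          (if (3 : ℤ) ^ (k + j + 1) ∣ 2 ^ t * v i + 3 ^ k * v' i' - (c + d * 3 ^ (k + j)) then
            wt i * wt' i' else 0) else 0) := by
    unfold cnt
    rw [sum_product]
    refine sum_congr rfl fun i _ => sum_congr rfl fun i' _ => ?_
    rw [sum_indicator2]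
  rw [h1]
  have h2 : ∀ i ∈ s, ∑ i' ∈ s', ∑ a ∈ range (3 ^ (k + j)),
        ∑ e ∈ range 3, (if (3 : ℤ) ^ (k + j + 1) ∣ v i - ((a : ℤ) + (e : ℤ) * 3 ^ (k + j)) then
          (if (3 : ℤ) ^ (k + j + 1) ∣ 2 ^ t * v i + 3 ^ k * v' i' - (c + d * 3 ^ (k + j)) then
            wt i * wt' i' else 0) else 0) =
      ∑ a ∈ range (3 ^ (k + j)), ∑ e ∈ range 3, ∑ i' ∈ s',
        (if (3 : ℤ) ^ (k + j + 1) ∣ v i - ((a : ℤ) + (e : ℤ) * 3 ^ (k + j)) then
          (if (3 : ℤ) ^ (k + j + 1) ∣ 2 ^ t * v i + 3 ^ k * v' i' - (c + d * 3 ^ (k + j)) then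
            wt i * wt' i' else 0) else 0) := by
    intro i _
    rw [sum_comm]
    refine sum_congr rfl fun a _ => ?_
    rw [sum_comm]
  rw [sum_congr rfl h2, sum_comm]
  refine sum_congr rfl fun a _ => ?_
  rw [sum_comm]
  refine sum_congr rfl fun e _ => ?_
  by_cases hP : (3 : ℤ) ^ k ∣ c - 2 ^ t * (a : ℤ)
  · rw [if_pos hP]
    unfold cnt
    rw [sum_mul_sum]
    refine sum_congr rfl fun i _ => sum_congr rfl fun i' _ => ?_
    by_cases hA : (3 : ℤ) ^ (k + j + 1) ∣ v i - ((a : ℤ) + (e : ℤ) * 3 ^ (k + j))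
    · rw [if_pos hA, if_pos hA]
      have := dvd_split t k j a e (v i) (v' i') c d hA
      simp only [hP, true_and] at this
      by_cases hB : (3 : ℤ) ^ (j + 1) ∣ v' i' - ((c - 2 ^ t * (a : ℤ)) / 3 ^ k
          + 3 ^ j * (d - 2 ^ t * (e : ℤ)))
      · rw [if_pos hB, if_pos (this.mpr hB)]
      · rw [if_neg hB, if_neg (fun h => hB (this.mp h))]; simp
    · rw [if_neg hA, if_neg hA]; simp
  · rw [if_neg hP]
    refine sum_eq_zero fun i _ => sum_eq_zero fun i' _ => ?_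
    by_cases hA : (3 : ℤ) ^ (k + j + 1) ∣ v i - ((a : ℤ) + (e : ℤ) * 3 ^ (k + j))
    · rw [if_pos hA]
      have := dvd_split t k j a e (v i) (v' i') c d hA
      rw [if_neg (fun h => hP (this.mp h).1)]
    · rw [if_neg hA]


/-- the triple of the second family, rotated by multiples of `2^t` -/
theorem F3_twist (t : ℕ) (α₀ α₁ α₂ : ℝ) (β : ℤ → ℝ) (hβ : ∀ f, β (f + 3) = β f) :
    F3 (α₀ * β 0 + α₁ * β (0 - 2 ^ t) + α₂ * β (0 - 2 ^ t * 2))
      (α₀ * β 1 + α₁ * β (1 - 2 ^ t) + α₂ * β (1 - 2 ^ t * 2))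
      (α₀ * β 2 + α₁ * β (2 - 2 ^ t) + α₂ * β (2 - 2 ^ t * 2)) =
    F3 α₀ α₁ α₂ * F3 (β 0) (β 1) (β 2) := by
  have hnat : ∀ (n : ℕ) (x : ℤ), β (x + 3 * n) = β x := by
    intro n
    induction n with
    | zero => intro x; simp
    | succ n ih =>
      intro x
      have e : x + 3 * ((n + 1 : ℕ) : ℤ) = (x + 3 * n) + 3 := by push_cast; ring
      rw [e, hβ, ih]
  have hper : ∀ x y : ℤ, x % 3 = y % 3 → β x = β y := by
    intro x y hxy
    rcases le_total x y with h | h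
    · obtain ⟨n, hn⟩ := Int.eq_ofNat_of_zero_le (show 0 ≤ (y - x) / 3 by omega)
      have : y = x + 3 * n := by omega
      rw [this, hnat]
    · obtain ⟨n, hn⟩ := Int.eq_ofNat_of_zero_le (show 0 ≤ (x - y) / 3 by omega)
      have : x = y + 3 * n := by omega
      rw [this, hnat]
  have h2 : ((2 : ℤ) ^ t) % 3 = 1 ∨ ((2 : ℤ) ^ t) % 3 = 2 := by
    induction t with
    | zero => left; norm_num
    | succ t ih => rw [pow_succ]; omega
  generalize (2 : ℤ) ^ t = u at h2 ⊢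
  rcases h2 with h2 | h2
  · rw [hper (0 - u) 2 (by omega), hper (0 - u * 2) 1 (by omega), hper (1 - u) 0 (by omega),
      hper (1 - u * 2) 2 (by omega), hper (2 - u) 1 (by omega), hper (2 - u * 2) 0 (by omega)]
    exact F3_conv _ _ _ _ _ _
  · rw [hper (0 - u) 1 (by omega), hper (0 - u * 2) 2 (by omega), hper (1 - u) 2 (by omega),
      hper (1 - u * 2) 0 (by omega), hper (2 - u) 0 (by omega), hper (2 - u * 2) 1 (by omega)]
    have h := F3_conv α₀ α₂ α₁ (β 0) (β 1) (β 2)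
    rw [F3_swap α₀ α₁ α₂] at h
    rw [← h]
    congr 1 <;> ring

/-- the fibre of a product family -/
theorem Fib_prod_le {s : Finset ι} {s' : Finset ι'} {wt : ι → ℝ} {wt' : ι' → ℝ}
    (v : ι → ℤ) (v' : ι' → ℤ) (h : ∀ i ∈ s, 0 ≤ wt i)
    (h' : ∀ i ∈ s', 0 ≤ wt' i) (t k j : ℕ) (c : ℤ) :
    Fib (s ×ˢ s') (fun p => wt p.1 * wt' p.2) (fun p => 2 ^ t * v p.1 + 3 ^ k * v' p.2) (k + j) c
      ≤ ∑ a ∈ range (3 ^ (k + j)), if (3 : ℤ) ^ k ∣ c - 2 ^ t * (a : ℤ) then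
        Fib s wt v (k + j) (a : ℤ) * Fib s' wt' v' j ((c - 2 ^ t * (a : ℤ)) / 3 ^ k) else 0 := by
  classical
  have hT : ∀ d : ℤ, cnt (s ×ˢ s') (fun p => wt p.1 * wt' p.2)
      (fun p => 2 ^ t * v p.1 + 3 ^ k * v' p.2) (k + j + 1) (c + d * 3 ^ (k + j)) =
      ∑ a ∈ range (3 ^ (k + j)), if (3 : ℤ) ^ k ∣ c - 2 ^ t * (a : ℤ) then
        (cnt s wt v (k + j + 1) (a : ℤ) *
          cnt s' wt' v' (j + 1) ((c - 2 ^ t * (a : ℤ)) / 3 ^ k + 3 ^ j * d) +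
        cnt s wt v (k + j + 1) ((a : ℤ) + 3 ^ (k + j)) *
          cnt s' wt' v' (j + 1) ((c - 2 ^ t * (a : ℤ)) / 3 ^ k + 3 ^ j * (d - 2 ^ t)) +
        cnt s wt v (k + j + 1) ((a : ℤ) + 2 * 3 ^ (k + j)) *
          cnt s' wt' v' (j + 1) ((c - 2 ^ t * (a : ℤ)) / 3 ^ k + 3 ^ j * (d - 2 ^ t * 2)))
        else 0 := by
    intro d
    rw [cnt_prod_aux]
    refine sum_congr rfl fun a _ => ?_
    split_ifs
    · simp [sum_range_succ]
    · simp
  have hT0 := hT 0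
  have hT1 := hT 1
  have hT2 := hT 2
  rw [zero_mul, add_zero] at hT0
  rw [one_mul] at hT1
  unfold Fib
  rw [hT0, hT1, hT2]
  have hnn : ∀ (d : ℤ), ∀ a ∈ range (3 ^ (k + j)), 0 ≤ (if (3 : ℤ) ^ k ∣ c - 2 ^ t * (a : ℤ) then
        (cnt s wt v (k + j + 1) (a : ℤ) *
          cnt s' wt' v' (j + 1) ((c - 2 ^ t * (a : ℤ)) / 3 ^ k + 3 ^ j * d) +
        cnt s wt v (k + j + 1) ((a : ℤ) + 3 ^ (k + j)) *
          cnt s' wt' v' (j + 1) ((c - 2 ^ t * (a : ℤ)) / 3 ^ k + 3 ^ j * (d - 2 ^ t)) +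
        cnt s wt v (k + j + 1) ((a : ℤ) + 2 * 3 ^ (k + j)) *
          cnt s' wt' v' (j + 1) ((c - 2 ^ t * (a : ℤ)) / 3 ^ k + 3 ^ j * (d - 2 ^ t * 2)))
        else 0) := by
    intro d a _
    split_ifs
    · exact add_nonneg (add_nonneg (mul_nonneg (cnt_nonneg h _ _) (cnt_nonneg h' _ _))
        (mul_nonneg (cnt_nonneg h _ _) (cnt_nonneg h' _ _)))
        (mul_nonneg (cnt_nonneg h _ _) (cnt_nonneg h' _ _))
    · exact le_rfl
  refine (F3_sum _ _ _ _ (hnn 0) (hnn 1) (hnn 2)).trans (le_of_eq ?_)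
  refine sum_congr rfl fun a _ => ?_
  split_ifs with hP
  · have hb := F3_twist t (cnt s wt v (k + j + 1) (a : ℤ))
      (cnt s wt v (k + j + 1) ((a : ℤ) + 3 ^ (k + j)))
      (cnt s wt v (k + j + 1) ((a : ℤ) + 2 * 3 ^ (k + j)))
      (fun f => cnt s' wt' v' (j + 1) ((c - 2 ^ t * (a : ℤ)) / 3 ^ k + 3 ^ j * f)) (by
        intro f
        apply cnt_congr
        exact ⟨1, by ring⟩)
    rw [hb]
    congr 2
    · rw [mul_zero, add_zero]
    · rw [mul_one]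
    · rw [mul_comm ((3 : ℤ) ^ j) 2]
  · exact F3_zero

/-- sums of `Fib` over distinct classes -/
theorem sum_Fib_le {κ : Type*} {s : Finset ι} {wt : ι → ℝ} (v : ι → ℤ) (J : ℕ)
    (h : ∀ i ∈ s, 0 ≤ wt i) (K : Finset κ) (b : κ → ℤ)
    (hb : ∀ x ∈ K, ∀ y ∈ K, (3 : ℤ) ^ J ∣ b x - b y → x = y) :
    ∑ x ∈ K, Fib s wt v J (b x) ≤ Gam s wt v J := by
  classical
  have h3 : (0 : ℤ) < 3 ^ J := by positivity
  let f : κ → ℕ := fun x => (b x % 3 ^ J).toNat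
  have hf : ∀ x, ((f x : ℕ) : ℤ) = b x % 3 ^ J := fun x =>
    Int.toNat_of_nonneg (Int.emod_nonneg _ h3.ne')
  have hinj : Set.InjOn f K := by
    intro x hx y hy hxy
    apply hb x hx y hy
    have : b x % 3 ^ J = b y % 3 ^ J := by rw [← hf, ← hf, hxy]
    exact Int.dvd_of_emod_eq_zero (Int.emod_eq_emod_iff_emod_sub_eq_zero.mp this)
  have hsub : K.image f ⊆ range (3 ^ J) := by
    intro y hy
    obtain ⟨x, _, rfl⟩ := mem_image.mp hy
    rw [mem_range]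
    have := Int.emod_lt_of_pos (b x) h3
    rw [← hf] at this
    exact_mod_cast this
  have e1 : ∑ x ∈ K, Fib s wt v J (b x) = ∑ y ∈ K.image f, Fib s wt v J (y : ℤ) := by
    rw [sum_image hinj]
    refine sum_congr rfl fun x _ => ?_
    rw [hf]
    exact Fib_congr s wt v J Int.dvd_self_sub_emod
  rw [e1]
  exact sum_le_sum_of_subset_of_nonneg hsub fun _ _ _ => Fib_nonneg v J h _

end

theorem two_pow_isCoprime (t J : ℕ) : IsCoprime ((3 : ℤ) ^ J) (2 ^ t) :=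
  IsCoprime.pow (by
    refine ⟨1, -1, by norm_num⟩)

/-- a single fibre of a product family `2^t v + 3^k v'`, at the level `k + j` -/
theorem Fib_conv {ι ι' : Type*} {s : Finset ι} {s' : Finset ι'} {wt : ι → ℝ} {wt' : ι' → ℝ}
    (v : ι → ℤ) (v' : ι' → ℤ) (h : ∀ i ∈ s, 0 ≤ wt i) (h' : ∀ i ∈ s', 0 ≤ wt' i) (t k j : ℕ)
    {B : ℝ} (hB : ∀ a : ℤ, cnt s wt v (k + j) a ≤ B) (c : ℤ) :
    Fib (s ×ˢ s') (fun p => wt p.1 * wt' p.2) (fun p => 2 ^ t * v p.1 + 3 ^ k * v' p.2) (k + j) c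
      ≤ B * Gam s' wt' v' j := by
  classical
  refine (Fib_prod_le v v' h h' t k j c).trans ?_
  have hB0 : 0 ≤ B := (cnt_nonneg h (k + j) 0).trans (hB 0)
  rw [← sum_filter]
  calc ∑ a ∈ (range (3 ^ (k + j))).filter (fun a : ℕ => (3 : ℤ) ^ k ∣ c - 2 ^ t * (a : ℤ)),
        Fib s wt v (k + j) (a : ℤ) * Fib s' wt' v' j ((c - 2 ^ t * (a : ℤ)) / 3 ^ k)
      ≤ ∑ a ∈ (range (3 ^ (k + j))).filter (fun a : ℕ => (3 : ℤ) ^ k ∣ c - 2 ^ t * (a : ℤ)),
        B * Fib s' wt' v' j ((c - 2 ^ t * (a : ℤ)) / 3 ^ k) := by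
        refine sum_le_sum fun a _ => ?_
        exact mul_le_mul_of_nonneg_right ((Fib_le v _ h _).trans (hB _)) (Fib_nonneg v' j h' _)
    _ = B * ∑ a ∈ (range (3 ^ (k + j))).filter (fun a : ℕ => (3 : ℤ) ^ k ∣ c - 2 ^ t * (a : ℤ)),
        Fib s' wt' v' j ((c - 2 ^ t * (a : ℤ)) / 3 ^ k) := by rw [mul_sum]
    _ ≤ B * Gam s' wt' v' j := by
        refine mul_le_mul_of_nonneg_left ?_ hB0
        refine sum_Fib_le v' j h' _ (fun a : ℕ => (c - 2 ^ t * (a : ℤ)) / 3 ^ k) ?_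
        intro x hx y hy hxy
        rw [mem_filter, mem_range] at hx hy
        obtain ⟨b, hb⟩ := hx.2
        obtain ⟨b', hb'⟩ := hy.2
        have h3 : (3 : ℤ) ^ k ≠ 0 := by positivity
        rw [hb, hb', Int.mul_ediv_cancel_left _ h3, Int.mul_ediv_cancel_left _ h3] at hxy
        have h4 : (3 : ℤ) ^ (k + j) ∣ 2 ^ t * ((y : ℤ) - x) := by
          have : 2 ^ t * ((y : ℤ) - x) = 3 ^ k * (b - b') := by linear_combination hb - hb'
          rw [this, pow_add]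
          exact mul_dvd_mul_left _ hxy
        have h5 : (3 : ℤ) ^ (k + j) ∣ (y : ℤ) - x :=
          (two_pow_isCoprime t (k + j)).dvd_of_dvd_mul_left h4
        have hx1 : (x : ℤ) < 3 ^ (k + j) := by exact_mod_cast hx.1
        have hy1 : (y : ℤ) < 3 ^ (k + j) := by exact_mod_cast hy.1
        have h6 := Int.eq_zero_of_abs_lt_dvd h5 (by
          rw [abs_lt]; constructor <;> linarith [Int.natCast_nonneg x, Int.natCast_nonneg y])
        have : (x : ℤ) = y := by linarith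
        exact_mod_cast this

theorem Gam_conv {ι ι' : Type*} {s : Finset ι} {s' : Finset ι'} {wt : ι → ℝ} {wt' : ι' → ℝ}
    (v : ι → ℤ) (v' : ι' → ℤ) (h : ∀ i ∈ s, 0 ≤ wt i) (h' : ∀ i ∈ s', 0 ≤ wt' i) (t k j : ℕ) :
    Gam (s ×ˢ s') (fun p => wt p.1 * wt' p.2) (fun p => 2 ^ t * v p.1 + 3 ^ k * v' p.2) (k + j)
      ≤ Gam s wt v (k + j) * Gam s' wt' v' j := by
  classical
  have h1 : Gam (s ×ˢ s') (fun p => wt p.1 * wt' p.2)
      (fun p => 2 ^ t * v p.1 + 3 ^ k * v' p.2) (k + j) ≤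
      ∑ c ∈ range (3 ^ (k + j)), ∑ a ∈ range (3 ^ (k + j)),
        if (3 : ℤ) ^ k ∣ (c : ℤ) - 2 ^ t * (a : ℤ) then
        Fib s wt v (k + j) (a : ℤ) * Fib s' wt' v' j (((c : ℤ) - 2 ^ t * (a : ℤ)) / 3 ^ k)
        else 0 := by
    unfold Gam
    exact sum_le_sum fun c _ => Fib_prod_le v v' h h' t k j c
  refine h1.trans ?_
  rw [sum_comm]
  have h2 : Gam s wt v (k + j) * Gam s' wt' v' j =
      ∑ a ∈ range (3 ^ (k + j)), Fib s wt v (k + j) (a : ℤ) * Gam s' wt' v' j := by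
    conv_lhs => rw [Gam]
    rw [sum_mul]
  rw [h2]
  refine sum_le_sum fun a _ => ?_
  rw [← sum_filter, ← mul_sum]
  refine mul_le_mul_of_nonneg_left ?_ (Fib_nonneg v _ h _)
  refine sum_Fib_le v' j h' _ (fun c : ℕ => ((c : ℤ) - 2 ^ t * (a : ℤ)) / 3 ^ k) ?_
  intro x hx y hy hxy
  rw [mem_filter, mem_range] at hx hy
  obtain ⟨b, hb⟩ := hx.2
  obtain ⟨b', hb'⟩ := hy.2
  have h3 : (3 : ℤ) ^ k ≠ 0 := by positivity
  rw [hb, hb', Int.mul_ediv_cancel_left _ h3, Int.mul_ediv_cancel_left _ h3] at hxy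
  have h5 : (3 : ℤ) ^ (k + j) ∣ (x : ℤ) - y := by
    have : (x : ℤ) - y = 3 ^ k * (b - b') := by linear_combination hb - hb'
    rw [this, pow_add]
    exact mul_dvd_mul_left _ hxy
  have hx1 : (x : ℤ) < 3 ^ (k + j) := by exact_mod_cast hx.1
  have hy1 : (y : ℤ) < 3 ^ (k + j) := by exact_mod_cast hy.1
  have h6 := Int.eq_zero_of_abs_lt_dvd h5 (by
    rw [abs_lt]; constructor <;> linarith [Int.natCast_nonneg x, Int.natCast_nonneg y])
  have : (x : ℤ) = y := by linarith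
  exact_mod_cast this

end Pool.Agent.H320R2.PD
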