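import Pool.Agent.H33.G.R_seed8.H320R2.PDQ4
import Pool.Agent.H33.G.R_seed8.H320R2.PDF3

/-!
Quenched estimates, part 5: the stability theorem, for every root.
-/

set_option autoImplicit false
set_option linter.unusedVariables false

namespace Pool.Agent.H320R2.PD

open Finset Real

open scoped Classical in
lemma ms_le_one {N0 : ℕ} {C : ℝ} (hC1 : 1 ≤ C)
    (hC : ∀ w : List ℕ, Nice N0 w → (Wo w : ℝ) ≤ C * 2 ^ w.sum)
    (A a l : ℕ) (x : ℤ) (hN : N0 ≤ a) (hL : 5 * (a + l) ≤ 6 * a) (τ : List ℕ → Prop) :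
    ms A (a + l) x (fun w => Nice N0 (w.take a) ∧ τ (w.drop a)) ≤ (C + 1) * (3 * a + 1) := by
  refine (ms_le hC1 hC A a l x hN hL τ).trans ?_
  refine mul_le_of_le_one_right (by positivity) ?_
  exact (Finset.sum_le_sum_of_subset_of_nonneg (Finset.filter_subset _ _)
    (fun w _ _ => (wwt_pos w).le)).trans (sum_wwt_le A l)

open scoped Classical in
lemma Ua_one_le {N0 : ℕ} {C : ℝ} (hC1 : 1 ≤ C)
    (hC : ∀ w : List ℕ, Nice N0 w → (Wo w : ℝ) ≤ C * 2 ^ w.sum)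
    (A a m : ℕ) (x : ℤ) (hN : N0 ≤ a) (hL : 5 * (a + m) ≤ 6 * a) :
    Ua N0 a A (a + m) x (fun _ => 1) ≤ (C + 1) * (3 * a + 1) := by
  have h1 := ms_le_one hC1 hC A a m x hN hL (fun _ => True)
  have h2 : Ua N0 a A (a + m) x (fun _ => 1)
      = ms A (a + m) x (fun w => Nice N0 (w.take a) ∧ (fun _ => True) (w.drop a)) := by
    unfold Ua ms
    rw [Finset.sum_filter, Finset.sum_filter]
    refine Finset.sum_congr rfl fun w _ => ?_
    by_cases hn : Nice N0 (w.take a)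
    · rw [if_pos hn]
      by_cases hd : (3 : ℤ) ^ (a + m) ∣ val x w
      · rw [if_pos hd, if_pos ⟨⟨hn, trivial⟩, hd⟩, wwt_eq]
        ring
      · rw [if_neg hd, if_neg (fun h => hd h.2)]
    · rw [if_neg hn, if_neg (fun h => hn h.1.1)]
  rw [h2]
  exact h1

lemma sqrt_aux {w F M : ℝ} (hw : 0 ≤ w) : √(w * F * (w * M)) = w * √(F * M) := by
  rw [show w * F * (w * M) = w ^ 2 * (F * M) by ring, Real.sqrt_mul (sq_nonneg w), Real.sqrt_sq hw]

open scoped Classical in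
lemma EE1_le {N0 : ℕ} {C : ℝ} (hC1 : 1 ≤ C)
    (hC : ∀ w : List ℕ, Nice N0 w → (Wo w : ℝ) ≤ C * 2 ^ w.sum)
    (A a m : ℕ) (x : ℤ) (hN : N0 ≤ a) (hL : 5 * (a + m) ≤ 6 * a) :
    EE1 N0 A a m x ≤ (C + 1) * (3 * a + 1) * √(gam A m m) := by
  set FF : ℕ × ℕ → ℝ := fun q => 3 ^ (a + m) / 2 ^ q.1 *
    Fib (Sn N0 A a q.1 ×ˢ FWT A m q.2) (fun p => 1 * wwt p.2)
      (fun p => 2 ^ q.2 * val x p.1 + 3 ^ a * ((Wo p.2 : ℕ) : ℤ)) (a + m) 0 with hFF
  set MM : ℕ × ℕ → ℝ := fun q => 3 ^ (a + m) / 2 ^ q.1 * PP N0 A a m x q.1 q.2 (a + m) 0 with hMM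
  have hcn : ∀ (T t M : ℕ) (c : ℤ), 0 ≤ PP N0 A a m x T t M c := by
    intro T t M c
    apply qcnt_nonneg
    intro p _
    simp only [one_mul]
    exact (wwt_pos _).le
  have hF0 : ∀ q, 0 ≤ FF q := by
    intro q
    have : 0 ≤ Fib (Sn N0 A a q.1 ×ˢ FWT A m q.2) (fun p => 1 * wwt p.2)
      (fun p => 2 ^ q.2 * val x p.1 + 3 ^ a * ((Wo p.2 : ℕ) : ℤ)) (a + m) 0 :=
      F3_nonneg (hcn _ _ _ _) (hcn _ _ _ _) (hcn _ _ _ _)
    simp only [hFF]
    positivity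
  have hM0 : ∀ q, 0 ≤ MM q := by
    intro q
    have := hcn q.1 q.2 (a + m) 0
    simp only [hMM]
    positivity
  have e1 : EE1 N0 A a m x
      = ∑ q ∈ range (3 * a + 1) ×ˢ range (m * A + 1), √(FF q) * √(MM q) := by
    unfold EE1
    rw [Finset.sum_product]
    refine Finset.sum_congr rfl fun T _ => Finset.sum_congr rfl fun t _ => ?_
    have hw : (0 : ℝ) ≤ 3 ^ (a + m) / 2 ^ T := by positivity
    rw [← Real.sqrt_mul (hF0 _)]
    simp only [hFF, hMM]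
    unfold RR
    rw [N3_F3 (hcn _ _ _ _) (hcn _ _ _ _) (hcn _ _ _ _)]
    have hsp : PP N0 A a m x T t (a + m) 0 = PP N0 A a m x T t (a + m + 1) 0
        + PP N0 A a m x T t (a + m + 1) (0 + 3 ^ (a + m))
        + PP N0 A a m x T t (a + m + 1) (0 + 2 * 3 ^ (a + m)) := qcnt_split _ _ _ _ _
    rw [← hsp, sqrt_aux hw]
    rfl
  rw [e1]
  refine (Real.sum_sqrt_mul_sqrt_le _ (fun q => hF0 q) (fun q => hM0 q)).trans ?_
  have hsumM : ∑ q ∈ range (3 * a + 1) ×ˢ range (m * A + 1), MM q ≤ (C + 1) * (3 * a + 1) := by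
    have h1 := Ua_one_le hC1 hC A a m x hN hL
    rw [Ua_eq A a m x hN] at h1
    rw [Finset.sum_product]
    refine le_trans (le_of_eq ?_) h1
    refine Finset.sum_congr rfl fun T _ => Finset.sum_congr rfl fun t _ => ?_
    simp only [hMM, mul_one]
  have hG0 : ∀ t, 0 ≤ Gam (FWT A m t) wwt (fun w => (Wo w : ℤ)) m :=
    fun t => Gam_nonneg _ _ fun w _ => (wwt_pos w).le
  have hsumF : ∑ q ∈ range (3 * a + 1) ×ˢ range (m * A + 1), FF q
      ≤ (C + 1) * (3 * a + 1) * gam A m m := by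
    rw [Finset.sum_product]
    have h1 : ∀ T ∈ range (3 * a + 1), ∑ t ∈ range (m * A + 1), FF (T, t)
        ≤ (C + 1) * gam A m m := by
      intro T _
      unfold gam
      rw [Finset.mul_sum]
      apply Finset.sum_le_sum
      intro t _
      simp only [hFF]
      rcases (Sn N0 A a T).eq_empty_or_nonempty with hE | ⟨u0, hu0⟩
      · rw [hE]
        have : Fib ((∅ : Finset (List ℕ)) ×ˢ FWT A m t) (fun p => 1 * wwt p.2)
            (fun p => 2 ^ t * val x p.1 + 3 ^ a * ((Wo p.2 : ℕ) : ℤ)) (a + m) 0 = 0 := by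
          unfold Fib cnt F3
          simp
        rw [this, mul_zero]
        have := hG0 t
        positivity
      · rw [mem_Sn] at hu0
        have hlen := (mem_FW.1 hu0.1.1).1
        have hs := hu0.2.sum (by rw [hlen]; exact hN)
        rw [hlen, hu0.1.2] at hs
        have hT : (3 : ℝ) ^ (a + m) ≤ 2 ^ T := three_le_two hs.1 hL
        have h2 := Fib_conv (s := Sn N0 A a T) (s' := FWT A m t) (wt := fun _ => (1 : ℝ))
          (wt' := wwt) (val x) (fun w => (Wo w : ℤ)) (fun _ _ => zero_le_one)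
          (fun w _ => (wwt_pos w).le) t a m
          (B := C * 2 ^ T / 3 ^ (a + m) + 1) (fun c => cnt_nice_le hC A a T (a + m) x c) 0
        have h3pos : (0 : ℝ) < 3 ^ (a + m) := by positivity
        have h2pos : (0 : ℝ) < 2 ^ T := by positivity
        calc (3 : ℝ) ^ (a + m) / 2 ^ T * Fib (Sn N0 A a T ×ˢ FWT A m t) (fun p => 1 * wwt p.2)
              (fun p => 2 ^ t * val x p.1 + 3 ^ a * ((Wo p.2 : ℕ) : ℤ)) (a + m) 0
            ≤ 3 ^ (a + m) / 2 ^ T * ((C * 2 ^ T / 3 ^ (a + m) + 1)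
              * Gam (FWT A m t) wwt (fun w => (Wo w : ℤ)) m) :=
              mul_le_mul_of_nonneg_left h2 (by positivity)
          _ = (C + 3 ^ (a + m) / 2 ^ T) * Gam (FWT A m t) wwt (fun w => (Wo w : ℤ)) m := by
              field_simp
          _ ≤ (C + 1) * Gam (FWT A m t) wwt (fun w => (Wo w : ℤ)) m := by
              refine mul_le_mul_of_nonneg_right ?_ (hG0 t)
              gcongr
              rw [div_le_one h2pos]
              exact hT
    refine (Finset.sum_le_sum h1).trans (le_of_eq ?_)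
    rw [Finset.sum_const, card_range, nsmul_eq_mul]
    push_cast
    ring
  have hg : 0 ≤ gam A m m := Finset.sum_nonneg fun t _ => hG0 t
  calc √(∑ q ∈ range (3 * a + 1) ×ˢ range (m * A + 1), FF q)
        * √(∑ q ∈ range (3 * a + 1) ×ˢ range (m * A + 1), MM q)
      ≤ √((C + 1) * (3 * a + 1) * gam A m m) * √((C + 1) * (3 * a + 1)) := by gcongr
    _ = (C + 1) * (3 * a + 1) * √(gam A m m) := by
      have hK : 0 ≤ (C + 1) * (3 * (a : ℝ) + 1) := by positivity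
      rw [Real.sqrt_mul hK, mul_comm (√((C + 1) * (3 * (a : ℝ) + 1))), mul_assoc,
        Real.mul_self_sqrt hK]
      ring

open scoped Classical in
lemma U_le_Ua {N0 : ℕ} (a A n : ℕ) (x : ℤ) {f : ℕ → ℝ} (hf : ∀ t, 0 ≤ f t) :
    U N0 A n x f ≤ Ua N0 a A n x f := by
  unfold U Ua
  rw [Finset.sum_filter, Finset.sum_filter]
  apply Finset.sum_le_sum
  intro w _
  have hpos : 0 ≤ (3 : ℝ) ^ n / 2 ^ w.sum * f w.sum := mul_nonneg (by positivity) (hf _)
  by_cases h : Nice N0 w ∧ (3 : ℤ) ^ n ∣ 2 ^ w.sum * x - Wo w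
  · rw [if_pos h, if_pos (h.1.take a), if_pos ((val_dvd x w n).2 h.2)]
  · rw [if_neg h]
    split_ifs
    · exact hpos
    · exact le_rfl
    · exact le_rfl

open scoped Classical in
lemma Ua_le_U {N0 : ℕ} (a A n : ℕ) (x : ℤ) {B : ℝ} {f : ℕ → ℝ} (hf : ∀ t, 0 ≤ f t ∧ f t ≤ B) :
    Ua N0 a A n x f ≤ U N0 A n x f
      + B * ms A n x (fun w => Nice N0 (w.take a) ∧ ¬ Nice N0 w) := by
  unfold U Ua ms
  rw [Finset.sum_filter, Finset.sum_filter, Finset.sum_filter, Finset.mul_sum,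
    ← Finset.sum_add_distrib]
  apply Finset.sum_le_sum
  intro w _
  have h3 : (0 : ℝ) ≤ 3 ^ n / 2 ^ w.sum := by positivity
  by_cases hn : Nice N0 (w.take a)
  · rw [if_pos hn]
    by_cases hd : (3 : ℤ) ^ n ∣ val x w
    · rw [if_pos hd]
      by_cases hw : Nice N0 w
      · rw [if_pos ⟨hw, (val_dvd x w n).1 hd⟩, if_neg (fun h => h.1.2 hw)]
        simp
      · rw [if_neg (fun h => hw h.1), if_pos ⟨⟨hn, hw⟩, hd⟩, wwt_eq]
        have := mul_le_mul_of_nonneg_left (hf w.sum).2 h3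
        calc _ ≤ _ := this
          _ = _ := by ring
    · rw [if_neg hd, if_neg (fun h => hd ((val_dvd x w n).2 h.2)), if_neg (fun h => hd h.2)]
      simp
  · rw [if_neg hn, if_neg (fun h => hn (h.1.take a)), if_neg (fun h => hn h.1.1)]
    simp

/-- the decay statement of the annealed nonuniformity -/
def DecayStmt : Prop := ∃ C : ℝ, 0 < C ∧ ∀ m : ℕ, 1 ≤ m → ∀ A, 3 * m ≤ A →
    gam A m m ≤ C / (m : ℝ) ^ 8

theorem quenched_of (hdecay : DecayStmt) (N0 : ℕ) : ∃ N1 : ℕ, ∃ C : ℝ, 0 < C ∧ ∀ n : ℕ, N1 ≤ n → ∀ A : ℕ,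
    3 * (n + 1) ≤ A → ∀ x : ℤ, ∀ B : ℝ, 0 ≤ B → ∀ f : ℕ → ℝ, (∀ t, 0 ≤ f t ∧ f t ≤ B) →
      U N0 A n x (fun t => ∑ e ∈ Icc 1 A, (1 / 2 : ℝ) ^ e * f (t + e))
        ≤ U N0 A (n + 1) x f + B * C / (n : ℝ) ^ 3 := by
  obtain ⟨C, hC1, hC⟩ := Wo_le N0
  obtain ⟨G, hG, hdec⟩ := hdecay
  set K1 : ℝ := 2 * (C + 1) * 4 * √G * 40 ^ 4 with hK1
  set K2 : ℝ := 8 * (C + 1) * (120 * 512000 ^ 5) with hK2
  refine ⟨2 * N0 + 40, K1 + K2, by positivity, ?_⟩
  intro n hn A hA x B hB f hf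
  set m := n / 20 with hm
  set a := n - m with ha
  set a2 := n - 2 * m with ha2
  have hmn : 20 * m ≤ n := by omega
  have hm1 : 1 ≤ m := by omega
  have ham : a + m = n := by omega
  have hNa2 : N0 ≤ a2 := by omega
  have hNa : N0 ≤ a := by omega
  have hn0 : (0 : ℝ) < n := by exact_mod_cast (by omega : 0 < n)
  have hm40 : (n : ℝ) / 40 ≤ m := by
    rw [div_le_iff₀ (by norm_num)]
    exact_mod_cast (by omega : n ≤ m * 40)
  have hm0 : (0 : ℝ) < m := by exact_mod_cast hm1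
  -- first step
  have hg0 : ∀ t, 0 ≤ ∑ e ∈ Icc 1 A, (1 / 2 : ℝ) ^ e * f (t + e) := by
    intro t
    apply Finset.sum_nonneg
    intro e _
    have := (hf (t + e)).1
    positivity
  have s1 := U_le_Ua (N0 := N0) a A n x hg0
  have s2 := Ua_step A a m x hNa hB f hf
  rw [ham] at s2
  have s3 := Ua_le_U (N0 := N0) a A (n + 1) x hf
  have s4 := EE1_le hC1 hC A a m x hNa (by omega)
  have s5 := rem_le hC1 hC A a2 a (n + 1) x hNa2 (by omega) (by omega) (by omega)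
  have s6 := hdec m hm1 A (by omega)
  have e1 : n + 1 - a = m + 1 := by omega
  have e2 : a - a2 = m := by omega
  rw [e1, e2] at s5
  -- error terms
  have hsq : √(gam A m m) ≤ √G * 40 ^ 4 / n ^ 4 := by
    refine (Real.sqrt_le_sqrt s6).trans ?_
    rw [Real.sqrt_div hG.le, show (m : ℝ) ^ 8 = (m ^ 4) ^ 2 by ring, Real.sqrt_sq (by positivity),
      div_le_div_iff₀ (by positivity) (by positivity)]
    have : (n : ℝ) ^ 4 ≤ 40 ^ 4 * m ^ 4 := by
      rw [← mul_pow]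
      gcongr
      linarith
    have h0 : 0 ≤ √G := Real.sqrt_nonneg _
    nlinarith
  have ha4 : (3 * (a : ℝ) + 1) ≤ 4 * n := by
    exact_mod_cast (by omega : 3 * a + 1 ≤ 4 * n)
  have ha24 : (3 * (a2 : ℝ) + 1) ≤ 4 * n := by
    exact_mod_cast (by omega : 3 * a2 + 1 ≤ 4 * n)
  have t1 : 2 * EE1 N0 A a m x ≤ K1 / n ^ 3 := by
    calc 2 * EE1 N0 A a m x ≤ 2 * ((C + 1) * (3 * a + 1) * √(gam A m m)) := by gcongr
      _ ≤ 2 * ((C + 1) * (4 * n) * (√G * 40 ^ 4 / n ^ 4)) := by gcongr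
      _ = K1 / n ^ 3 := by
        rw [hK1]
        field_simp
  have hexp : exp (-((m : ℝ) / 12800)) ≤ 120 * 512000 ^ 5 / n ^ 5 := by
    have h1 : (n : ℝ) / 512000 ≤ (m : ℝ) / 12800 := by
      have : (n : ℝ) / 512000 = (n / 40) / 12800 := by ring
      rw [this]
      gcongr
    have h2 : ((n : ℝ) / 512000) ^ 5 / 120 ≤ exp ((m : ℝ) / 12800) := by
      have h3 := Real.pow_div_factorial_le_exp ((n : ℝ) / 512000) (by positivity) 5
      have h4 : ((Nat.factorial 5 : ℕ) : ℝ) = 120 := by norm_num [Nat.factorial]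
      rw [h4] at h3
      exact h3.trans (exp_le_exp.2 h1)
    rw [Real.exp_neg, inv_le_comm₀ (exp_pos _) (by positivity)]
    refine le_trans (le_of_eq ?_) h2
    field_simp
  have t2 : ms A (n + 1) x (fun w => Nice N0 (w.take a) ∧ ¬ Nice N0 w) ≤ K2 / n ^ 3 := by
    refine s5.trans ?_
    have hmn' : ((m + 1 : ℕ) : ℝ) ≤ n := by exact_mod_cast (by omega : m + 1 ≤ n)
    calc ((m + 1 : ℕ) : ℝ) * ((C + 1) * (3 * a2 + 1) * (2 * exp (-((m : ℝ) / 12800))))
        ≤ n * ((C + 1) * (4 * n) * (2 * (120 * 512000 ^ 5 / n ^ 5))) := by gcongr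
      _ = K2 / n ^ 3 := by
        rw [hK2]
        field_simp
        ring
  calc U N0 A n x (fun t => ∑ e ∈ Icc 1 A, (1 / 2 : ℝ) ^ e * f (t + e))
      ≤ Ua N0 a A (n + 1) x f + 2 * B * EE1 N0 A a m x := s1.trans s2
    _ ≤ (U N0 A (n + 1) x f + B * ms A (n + 1) x (fun w => Nice N0 (w.take a) ∧ ¬ Nice N0 w))
        + B * (2 * EE1 N0 A a m x) := by linarith
    _ ≤ (U N0 A (n + 1) x f + B * (K2 / n ^ 3)) + B * (K1 / n ^ 3) := by gcongr
    _ = _ := by ring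

end Pool.Agent.H320R2.PD
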