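import Pool.Agent.H33.G.R_seed8.H320R2.PDGam
import Pool.Agent.H33.G.R_seed8.H320R2.PDQuenchedOf

/-!
Positive density theorem: the stability estimate for every root.
-/

set_option autoImplicit false

namespace Pool.Agent.H320R2.PD

open Finset

theorem quenched (N0 : ℕ) : ∃ N1 : ℕ, ∃ C : ℝ, 0 < C ∧ ∀ n : ℕ, N1 ≤ n → ∀ A : ℕ,
    3 * (n + 1) ≤ A → ∀ x : ℤ, ∀ B : ℝ, 0 ≤ B → ∀ f : ℕ → ℝ, (∀ t, 0 ≤ f t ∧ f t ≤ B) →
      U N0 A n x (fun t => ∑ e ∈ Icc 1 A, (1 / 2 : ℝ) ^ e * f (t + e))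
        ≤ U N0 A (n + 1) x f + B * C / (n : ℝ) ^ 3 :=
  quenched_of gam_decay N0

end Pool.Agent.H320R2.PD
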