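import Pool.Agent.H33.G.R_seed8.H320R2.PDDefs
import Pool.Agent.H33.G.R_seed8.H412R2.Final

/-! Task 7 (HIT): every class mod `3^N` prime to 3 contains a predecessor of `a`. -/

set_option autoImplicit false

namespace Pool.Agent.H320R2.PD

open Finset Pool.Agent.H412R2

/-- a positive value of the iterated Markov operator is seen along a path -/
theorem path_of_pos {q R : ℕ} (κ : Ker q R) (g : ℤ → ℝ) : ∀ (i : ℕ) (x : ℤ),
    0 < (κ.P)^[i] g x → ∃ s z, Path κ.S κ.K i s x z ∧ 0 < g z := by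
  intro i
  induction i with
  | zero =>
    intro x h
    exact ⟨0, x, H412R2.Path.refl x, h⟩
  | succ i ih =>
    intro x h
    rw [Function.iterate_succ_apply'] at h
    have h1 : 0 < ∑ b ∈ κ.K x, (κ.P)^[i] g b := by
      by_contra hc
      have hc' := not_lt.1 hc
      have : κ.P ((κ.P)^[i] g) x ≤ 0 := by
        unfold Ker.P
        exact div_nonpos_of_nonpos_of_nonneg hc' (Nat.cast_nonneg _)
      linarith
    obtain ⟨b, hb, hb2⟩ := Finset.exists_lt_of_sum_lt (f := fun _ => (0 : ℝ)) (by simpa using h1)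
    obtain ⟨s, z, hp, hz⟩ := ih b hb2
    exact ⟨s + κ.S x, z, H412R2.Path.step hb hp, hz⟩

theorem two_pow_tot (N : ℕ) : (3 : ℤ) ^ N ∣ 2 ^ (Nat.totient (3 ^ N)) - 1 := by
  have h := Nat.ModEq.pow_totient (n := 3 ^ N) (x := 2) (Nat.Coprime.pow_right N (by norm_num))
  have h2 := (Nat.modEq_iff_dvd.1 h.symm)
  push_cast at h2
  exact h2

theorem hit (N : ℕ) (r a : ℤ) (hr : ¬ (3 : ℤ) ∣ r) (ha : ¬ (3 : ℤ) ∣ a) :
    ∃ (z : ℤ) (k : ℕ), fT^[k] z = a ∧ (3 : ℤ) ^ N ∣ z - r := by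
  classical
  set T := max 20 N with hT
  have hT20 : 20 ≤ T := le_max_left _ _
  have hNT : N ≤ T := le_max_right _ _
  have hc := c2_gt
  have hη : (0 : ℝ) ≤ c2 / 4 := by linarith
  set κ := ker 0 T hη hT20 with hκ
  set ε : ℝ := 1 / (2 * 3 ^ T) with hε
  have hε0 : 0 < ε := by positivity
  set Pr : ℤ → Prop := fun x => (3 : ℤ) ^ N ∣ x - r ∨ (3 : ℤ) ^ N ∣ x - 2 * r with hPr
  set g : ℤ → ℝ := fun x => (if Pr x then 1 else 0) - ε with hg
  have hPs : ∀ x y : ℤ, Pr (x + (3 : ℤ) ^ (T + 1) * y) ↔ Pr x := by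
    intro x y
    have hd : (3 : ℤ) ^ N ∣ (3 : ℤ) ^ (T + 1) * y :=
      Dvd.dvd.mul_right (pow_dvd_pow 3 (by omega)) y
    have e1 : x + (3 : ℤ) ^ (T + 1) * y - r = (x - r) + (3 : ℤ) ^ (T + 1) * y := by ring
    have e2 : x + (3 : ℤ) ^ (T + 1) * y - 2 * r = (x - 2 * r) + (3 : ℤ) ^ (T + 1) * y := by ring
    simp only [hPr]
    rw [e1, e2, dvd_add_left hd, dvd_add_left hd]
  have hgper : ∀ x y : ℤ, ¬ ((3 : ℕ) : ℤ) ∣ x → g (x + ((3 : ℕ) : ℤ) ^ (T + 1) * y) = g x := by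
    intro x y _
    simp only [hg]
    push_cast
    rw [if_congr (hPs x y) rfl rfl]
  have hpos : ∀ r0 ∈ Finset.Ico 1 3,
      0 < ∑ x ∈ (Finset.range (3 ^ (T + 1))).filter (fun x => x % 3 = r0), g (x : ℤ) := by
    intro r0 hr0
    have hr0' := Finset.mem_Ico.1 hr0
    set C := (Finset.range (3 ^ (T + 1))).filter (fun x => x % 3 = r0) with hC
    have hCc : (C.card : ℝ) = 3 ^ T := by
      have := class_card T r0 hr0
      rw [hC, this]; push_cast; ring
    -- a representative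
    obtain ⟨u, hu, hu3⟩ : ∃ u : ℤ, (u = r ∨ u = 2 * r) ∧ u % 3 = (r0 : ℤ) := by
      have h1 : r % 3 = 1 ∨ r % 3 = 2 := by omega
      by_cases h2 : r % 3 = (r0 : ℤ)
      · exact ⟨r, Or.inl rfl, h2⟩
      · exact ⟨2 * r, Or.inr rfl, by omega⟩
    have hM : (0 : ℤ) < 3 ^ (T + 1) := by positivity
    set x0 := (u % 3 ^ (T + 1)).toNat with hx0
    have hx0c : ((x0 : ℕ) : ℤ) = u % 3 ^ (T + 1) := Int.toNat_of_nonneg (Int.emod_nonneg _ hM.ne')
    have hx0l : x0 < 3 ^ (T + 1) := by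
      have := Int.emod_lt_of_pos u hM
      rw [← hx0c] at this
      exact_mod_cast this
    have hx0d : ((x0 : ℕ) : ℤ) = u + 3 ^ (T + 1) * (-(u / 3 ^ (T + 1))) := by
      rw [hx0c, Int.emod_def]; ring
    have hx0m : x0 % 3 = r0 := by
      have h3 : ((x0 : ℕ) : ℤ) % 3 = u % 3 := by
        rw [hx0c]
        exact Int.emod_emod_of_dvd u (dvd_pow_self 3 (by omega))
      omega
    have hmem : x0 ∈ C := by
      rw [hC, Finset.mem_filter, Finset.mem_range]
      exact ⟨hx0l, hx0m⟩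
    have hPx : Pr (x0 : ℤ) := by
      rw [hx0d, hPs]
      simp only [hPr]
      rcases hu with h | h
      · left; rw [h]; simp
      · right; rw [h]; simp
    have hlow : (1 : ℝ) ≤ ∑ x ∈ C, (if Pr (x : ℤ) then (1 : ℝ) else 0) := by
      have := Finset.single_le_sum (f := fun x : ℕ => (if Pr (x : ℤ) then (1 : ℝ) else 0))
        (fun x _ => by split_ifs <;> norm_num) hmem
      simpa [hPx] using this
    have hsum : ∑ x ∈ C, g (x : ℤ) = (∑ x ∈ C, (if Pr (x : ℤ) then (1 : ℝ) else 0)) - 1 / 2 := by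
      simp only [hg]
      rw [Finset.sum_sub_distrib, Finset.sum_const, nsmul_eq_mul, hCc, hε]
      congr 1
      field_simp
    rw [hsum]
    linarith
  obtain ⟨n, _, hn⟩ := positive κ Nat.prime_three (by norm_num) (by omega) g hgper hpos
  have ha' : ¬ ((3 : ℕ) : ℤ) ∣ a := by exact_mod_cast ha
  obtain ⟨i, _, hi⟩ := Finset.exists_lt_of_sum_lt (f := fun _ => (0 : ℝ))
    (by simpa using hn a ha')
  obtain ⟨s, z, hp, hz⟩ := path_of_pos κ g i a hi
  have hPz : Pr z := by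
    by_contra hc
    simp only [hg] at hz
    rw [if_neg hc] at hz
    linarith
  have htr : z ∈ tr 3 (6 * T) (T * i) s a := path_tr hp
  obtain ⟨k, hk⟩ := tr_reach_T htr
  rcases hPz with h | h
  · exact ⟨z, k, hk, h⟩
  · set m := Nat.totient (3 ^ N) with hm
    have hm0 : 0 < m := Nat.totient_pos.2 (by positivity)
    have h2 := two_pow_tot N
    rw [← hm] at h2
    obtain ⟨m', hm'⟩ : ∃ m', m = m' + 1 := ⟨m - 1, by omega⟩
    refine ⟨2 ^ m' * z, k + m', ?_, ?_⟩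
    · rw [Function.iterate_add_apply]
      have := fT_halves m' z
      rw [show (fT : ℤ → ℤ) = Pool.Agent.H412R2.fT from rfl, this]
      exact hk
    · have e : 2 ^ m' * z - r = 2 ^ m' * (z - 2 * r) + (2 ^ (m' + 1) - 1) * r := by ring
      rw [e]
      apply dvd_add (Dvd.dvd.mul_left h _)
      rw [← hm']
      exact Dvd.dvd.mul_right h2 r

end Pool.Agent.H320R2.PD
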