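import Pool.Agent.H33.G.R_seed8.H320R2.PDFinalA

/-! Task 9 (FINAL), part B: the linear lower bound from the statements of the other tasks. -/

set_option autoImplicit false

namespace Pool.Agent.H320R2.PD

open Finset

theorem fT_pos_iff (m : ℤ) : 0 < fT m ↔ 0 < m := by
  rcases eq_or_ne (m % 2) 0 with h | h
  · rw [fT_even h]; omega
  · rw [fT_odd h]; omega

theorem fT_neg_iff (m : ℤ) : fT m < 0 ↔ m < 0 := by
  rcases eq_or_ne (m % 2) 0 with h | h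
  · rw [fT_even h]; omega
  · rw [fT_odd h]; omega

theorem fT_iter_pos_iff (k : ℕ) (m : ℤ) : 0 < fT^[k] m ↔ 0 < m := by
  induction k generalizing m with
  | zero => simp
  | succ k ih => rw [Function.iterate_succ_apply, ih, fT_pos_iff]

theorem fT_iter_neg_iff (k : ℕ) (m : ℤ) : fT^[k] m < 0 ↔ m < 0 := by
  induction k generalizing m with
  | zero => simp
  | succ k ih => rw [Function.iterate_succ_apply, ih, fT_neg_iff]

theorem iter_periodic {x : ℤ} {p : ℕ} (h : fT^[p] x = x) (m : ℕ) : fT^[p * m] x = x := by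
  rw [Function.iterate_mul]
  exact Function.iterate_fixed h m

theorem iter_mod {x : ℤ} {p : ℕ} (h : fT^[p] x = x) (n : ℕ) : fT^[n] x = fT^[n % p] x := by
  conv_lhs => rw [← Nat.mod_add_div n p, Function.iterate_add_apply, iter_periodic h]

/-- some `2^j a` is not periodic -/
theorem exists_nonperiodic {a : ℤ} (ha : a ≠ 0) :
    ∃ j : ℕ, ∀ k, 1 ≤ k → fT^[k] (2 ^ j * a) ≠ 2 ^ j * a := by
  by_contra hcon
  push Not at hcon
  obtain ⟨p, hp1, hp⟩ := hcon 0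
  simp only [pow_zero, one_mul] at hp
  -- every `2^j a` lies in the forward orbit of `a`
  have hall : ∀ j : ℕ, ∃ i, i < p ∧ fT^[i] a = 2 ^ j * a := by
    intro j
    obtain ⟨k, hk1, hk⟩ := hcon j
    obtain ⟨m, hm⟩ : ∃ m, k * (j + 1) = m + j := ⟨k * (j + 1) - j, by
      have : j + 1 ≤ k * (j + 1) := Nat.le_mul_of_pos_left _ hk1
      omega⟩
    have h1 := iter_periodic hk (j + 1)
    rw [hm, Function.iterate_add_apply, fT_halve] at h1
    refine ⟨m % p, Nat.mod_lt _ hp1, ?_⟩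
    rw [← iter_mod hp, h1]
  -- pigeonhole
  choose i hi hi2 using hall
  obtain ⟨j, hj, j', hj', hne, heq⟩ := Finset.exists_ne_map_eq_of_card_lt_of_maps_to
    (s := Finset.range (p + 1)) (t := Finset.range p) (f := i) (by simp)
    (fun j _ => by simpa using hi j)
  have h1 := hi2 j
  have h2 := hi2 j'
  rw [heq, h2] at h1
  have h3 : (2 : ℤ) ^ j' = 2 ^ j := mul_right_cancel₀ ha h1
  exact hne ((Int.pow_right_injective (by norm_num)) h3).symm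

def GoodClassStmt : Prop := ∃ (N0 N : ℕ) (r : ℤ), N0 ≤ N ∧ 1 ≤ N ∧ ¬ (3 : ℤ) ∣ r ∧
    ∀ x : ℤ, (3 : ℤ) ^ N ∣ x - r → ∀ A n : ℕ, N ≤ n → 3 * n ≤ A →
      (1 / 4 : ℝ) ≤ U N0 A n x (fun _ => 1)

def CountStmt : Prop := ∀ {N0 N : ℕ} (_ : N0 ≤ N) (x : ℤ)
    (_ : ∀ A n : ℕ, N ≤ n → 3 * n ≤ A → (1 / 4 : ℝ) ≤ U N0 A n x (fun _ => 1)),
    ∃ c : ℝ, 0 < c ∧ ∃ X0 : ℝ, ∀ X : ℝ, X0 ≤ X → ∃ S : Finset (List ℕ),
      (∀ w ∈ S, (∀ e ∈ w, 1 ≤ e) ∧ (3 : ℤ) ^ w.length ∣ 2 ^ w.sum * x - Wo w ∧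
        (|(2 ^ w.sum * x - Wo w) / 3 ^ w.length| : ℤ) ≤ X) ∧ c * X ≤ S.card

def WoInjStmt : Prop := ∀ {u v : List ℕ}, (∀ e ∈ u, 1 ≤ e) → (∀ e ∈ v, 1 ≤ e) →
    u.length = v.length → u.sum = v.sum → Wo u = Wo v → u = v

theorem main_linear_of (Wo_inj : WoInjStmt) (good_class : GoodClassStmt)
    (count_nodes : CountStmt) (a : ℤ) (ha : ¬ (3 : ℤ) ∣ a) :
    ∃ c : ℝ, 0 < c ∧ ∃ X0 : ℝ, ∀ X : ℝ, X0 ≤ X → ∃ S : Finset ℤ,
      (∀ z ∈ S, (|z| : ℤ) ≤ X ∧ (0 < a → 0 < z) ∧ (a < 0 → z < 0) ∧ ∃ k, fT^[k] z = a) ∧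
        c * X ≤ S.card := by
  classical
  have ha0 : a ≠ 0 := by rintro rfl; exact ha (dvd_zero _)
  obtain ⟨j, hj⟩ := exists_nonperiodic ha0
  obtain ⟨N0, N, r, hN0, hN1, hr, hU⟩ := good_class
  have hja : ¬ (3 : ℤ) ∣ 2 ^ j * a := by
    intro h
    have hc : IsCoprime (3 : ℤ) (2 ^ j) := IsCoprime.pow_right (by norm_num)
    exact ha (hc.dvd_of_dvd_mul_left h)
  obtain ⟨x, k, hk, hx⟩ := hit N r (2 ^ j * a) hr hja
  have hxp : ∀ m, 1 ≤ m → fT^[m] x ≠ x := by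
    intro m hm h
    apply hj m hm
    rw [← hk, ← Function.iterate_add_apply, add_comm, Function.iterate_add_apply, h]
  obtain ⟨c, hc, X0, hX⟩ := count_nodes hN0 x (hU x hx)
  refine ⟨c, hc, X0, fun X hXX => ?_⟩
  obtain ⟨S, hS, hcard⟩ := hX X hXX
  set f : List ℕ → ℤ := fun w => (2 ^ w.sum * x - Wo w) / 3 ^ w.length with hf
  refine ⟨S.image f, ?_, ?_⟩
  · intro z hz
    obtain ⟨w, hw, rfl⟩ := Finset.mem_image.1 hz
    obtain ⟨h1, h2, h3⟩ := hS w hw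
    have hreach : fT^[j + (k + w.sum)] (f w) = a := by
      rw [Function.iterate_add_apply, Function.iterate_add_apply, hf]
      simp only
      rw [endpoint_reach h1 h2, hk, fT_halve]
    refine ⟨h3, fun h0 => ?_, fun h0 => ?_, _, hreach⟩
    · rw [← hreach] at h0
      exact (fT_iter_pos_iff _ _).1 h0
    · rw [← hreach] at h0
      exact (fT_iter_neg_iff _ _).1 h0
  · rw [Finset.card_image_of_injOn]
    · exact hcard
    · intro w hw w' hw' he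
      obtain ⟨h1, h2, _⟩ := hS w hw
      obtain ⟨h1', h2', _⟩ := hS w' hw'
      exact endpoint_inj_of Wo_inj hxp h1 h1' h2 h2' he

theorem S17055_of (Wo_inj : WoInjStmt) (good_class : GoodClassStmt) (count_nodes : CountStmt) :
    ∀ a : ℤ, ¬ ((3 : ℤ) ∣ a) →
      ∃ c : ℝ, 0 < c ∧ ∃ N₀ : ℕ, ∀ N : ℕ, N₀ ≤ N →
        c * (N : ℝ) <
          (({n : ℤ | |n| ≤ (N : ℤ) ∧
              ∃ k : ℕ, (fun m : ℤ => if m % 2 = 0 then m / 2 else (3 * m + 1) / 2)^[k] n = a}.ncard : ℕ) : ℝ) := by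
  intro a ha
  obtain ⟨c, hc, X0, hX⟩ := main_linear_of Wo_inj good_class count_nodes a ha
  refine ⟨c / 2, by positivity, max 1 ⌈X0⌉₊, fun N hN => ?_⟩
  have hN1 : 1 ≤ N := (le_max_left _ _).trans hN
  have hNX : X0 ≤ N := (Nat.le_ceil X0).trans (by exact_mod_cast (le_max_right _ _).trans hN)
  obtain ⟨S, hS, hcard⟩ := hX N hNX
  have hfin : {n : ℤ | |n| ≤ (N : ℤ) ∧
      ∃ k : ℕ, (fun m : ℤ => if m % 2 = 0 then m / 2 else (3 * m + 1) / 2)^[k] n = a}.Finite := by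
    apply (Set.finite_Icc (-(N : ℤ)) N).subset
    intro n hn
    exact ⟨(abs_le.1 hn.1).1, (abs_le.1 hn.1).2⟩
  have hsub : (S : Set ℤ) ⊆ {n : ℤ | |n| ≤ (N : ℤ) ∧
      ∃ k : ℕ, (fun m : ℤ => if m % 2 = 0 then m / 2 else (3 * m + 1) / 2)^[k] n = a} := by
    intro z hz
    obtain ⟨h1, _, _, h4⟩ := hS z hz
    exact ⟨by exact_mod_cast h1, h4⟩
  have h1 := Set.ncard_le_ncard hsub hfin
  rw [Set.ncard_coe_finset] at h1
  have h2 : (S.card : ℝ) ≤ ({n : ℤ | |n| ≤ (N : ℤ) ∧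
      ∃ k : ℕ, (fun m : ℤ => if m % 2 = 0 then m / 2 else (3 * m + 1) / 2)^[k] n = a}.ncard : ℕ) := by
    exact_mod_cast h1
  have hNr : (1 : ℝ) ≤ N := by exact_mod_cast hN1
  nlinarith

/-- the case of positive integers, for the map on the natural numbers -/
theorem linear_nat_of (Wo_inj : WoInjStmt) (good_class : GoodClassStmt) (count_nodes : CountStmt)
    (a : ℕ) (ha0 : 0 < a) (ha : ¬ 3 ∣ a) :
    ∃ c : ℝ, 0 < c ∧ ∃ X0 : ℝ, ∀ X : ℝ, X0 ≤ X →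
      c * X ≤ ({n : ℕ | 0 < n ∧ (n : ℝ) ≤ X ∧
        ∃ k : ℕ, (fun m : ℕ => if m % 2 = 0 then m / 2 else (3 * m + 1) / 2)^[k] n = a}.ncard : ℝ) := by
  have ha' : ¬ (3 : ℤ) ∣ (a : ℤ) := by
    intro h; exact ha (by exact_mod_cast h)
  obtain ⟨c, hc, X0, hX⟩ := main_linear_of Wo_inj good_class count_nodes a ha'
  refine ⟨c, hc, X0, fun X hXX => ?_⟩
  obtain ⟨S, hS, hcard⟩ := hX X hXX
  have hiter : ∀ (k : ℕ) (n : ℕ),
      (((fun m : ℕ => if m % 2 = 0 then m / 2 else (3 * m + 1) / 2)^[k] n : ℕ) : ℤ) =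
        fT^[k] (n : ℤ) := by
    intro k
    induction k with
    | zero => intro n; rfl
    | succ k ih =>
      intro n
      rw [Function.iterate_succ_apply, Function.iterate_succ_apply, ih]
      congr 1
      simp only [fT]
      split_ifs <;> omega
  have hfin : {n : ℕ | 0 < n ∧ (n : ℝ) ≤ X ∧
        ∃ k : ℕ, (fun m : ℕ => if m % 2 = 0 then m / 2 else (3 * m + 1) / 2)^[k] n = a}.Finite := by
    apply (Set.finite_Iic ⌊X⌋₊).subset
    intro n hn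
    exact Nat.le_floor hn.2.1
  have hsub : ((S.image Int.toNat : Finset ℕ) : Set ℕ) ⊆ {n : ℕ | 0 < n ∧ (n : ℝ) ≤ X ∧
        ∃ k : ℕ, (fun m : ℕ => if m % 2 = 0 then m / 2 else (3 * m + 1) / 2)^[k] n = a} := by
    intro n hn
    obtain ⟨z, hz, rfl⟩ := Finset.mem_image.1 (Finset.mem_coe.1 hn)
    obtain ⟨h1, h2, _, k, hk⟩ := hS z hz
    have hz0 : 0 < z := h2 (by exact_mod_cast ha0)
    have hzn : ((z.toNat : ℕ) : ℤ) = z := Int.toNat_of_nonneg hz0.le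
    refine ⟨by omega, ?_, k, ?_⟩
    · have : ((z.toNat : ℕ) : ℝ) = (z : ℝ) := by exact_mod_cast congrArg (Int.cast : ℤ → ℝ) hzn
      rw [this]
      rw [abs_of_pos hz0] at h1
      exact h1
    · have := hiter k z.toNat
      rw [hzn, hk] at this
      exact_mod_cast this
  have h1 := Set.ncard_le_ncard hsub hfin
  rw [Set.ncard_coe_finset, Finset.card_image_of_injOn] at h1
  · have h2 : (S.card : ℝ) ≤ ({n : ℕ | 0 < n ∧ (n : ℝ) ≤ X ∧
        ∃ k : ℕ, (fun m : ℕ => if m % 2 = 0 then m / 2 else (3 * m + 1) / 2)^[k] n = a}.ncard : ℝ) := by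
      exact_mod_cast h1
    linarith
  · intro z hz z' hz' he
    have hp := (hS z hz).2.1 (by exact_mod_cast ha0)
    have hp' := (hS z' hz').2.1 (by exact_mod_cast ha0)
    omega

end Pool.Agent.H320R2.PD
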