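import Pool.Agent.H33.G.R_seed8.H320R2.PDWords

/-!
Quenched estimates, part 1: nice words, offsets, and the mass bound valid for every root.
-/

set_option autoImplicit false
set_option linter.unusedVariables false

namespace Pool.Agent.H320R2.PD

open Finset Real

/-! ### nice words -/

lemma Nice.take {N0 : ℕ} {w : List ℕ} (h : Nice N0 w) (a : ℕ) : Nice N0 (w.take a) := by
  intro i hi hl
  rw [List.length_take] at hl
  have h1 : i ≤ a := hl.trans (min_le_left _ _)
  have h2 : i ≤ w.length := hl.trans (min_le_right _ _)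
  rw [List.take_take, min_eq_left h1]
  exact h i hi h2

lemma Nice.sum {N0 : ℕ} {w : List ℕ} (h : Nice N0 w) (hN : N0 ≤ w.length) :
    39 * w.length ≤ 20 * w.sum ∧ 20 * w.sum ≤ 41 * w.length := by
  have := h w.length hN le_rfl
  rwa [List.take_length] at this

lemma three_le_two {a L T : ℕ} (hT : 39 * a ≤ 20 * T) (hL : 5 * L ≤ 6 * a) :
    (3 : ℝ) ^ L ≤ 2 ^ T := by
  refine le_of_pow_le_pow_left₀ (n := 100) (by norm_num) (by positivity) ?_
  have h1 : ((3 : ℝ) ^ L) ^ 100 ≤ (3 : ℝ) ^ (120 * a) := by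
    rw [← pow_mul]
    exact pow_le_pow_right₀ (by norm_num) (by omega)
  have h2 : (3 : ℝ) ^ (120 * a) ≤ (2 : ℝ) ^ (195 * a) := by
    rw [show 120 * a = 24 * (5 * a) by ring, show 195 * a = 39 * (5 * a) by ring,
      pow_mul (3 : ℝ) 24 (5 * a), pow_mul (2 : ℝ) 39 (5 * a)]
    exact pow_le_pow_left₀ (by norm_num) (by norm_num) _
  have h3 : (2 : ℝ) ^ (195 * a) ≤ ((2 : ℝ) ^ T) ^ 100 := by
    rw [← pow_mul]
    exact pow_le_pow_right₀ (by norm_num) (by omega)
  exact h1.trans (h2.trans h3)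

lemma two_ge {n S : ℕ} (h : 39 * n ≤ 20 * S) : (19 / 5 : ℝ) ^ n ≤ 2 ^ S := by
  refine le_of_pow_le_pow_left₀ (n := 20) (by norm_num) (by positivity) ?_
  have h1 : ((19 / 5 : ℝ) ^ n) ^ 20 ≤ (2 : ℝ) ^ (39 * n) := by
    rw [← pow_mul, mul_comm n 20, pow_mul (19 / 5 : ℝ) 20 n, pow_mul (2 : ℝ) 39 n]
    exact pow_le_pow_left₀ (by norm_num) (by norm_num) _
  have h2 : (2 : ℝ) ^ (39 * n) ≤ ((2 : ℝ) ^ S) ^ 20 := by
    rw [← pow_mul]
    exact pow_le_pow_right₀ (by norm_num) (by omega)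
  exact h1.trans h2

/-- offsets of nice words are at most a constant times `2^T` -/
lemma Wo_le (N0 : ℕ) : ∃ C : ℝ, 1 ≤ C ∧ ∀ w : List ℕ, Nice N0 w → (Wo w : ℝ) ≤ C * 2 ^ w.sum := by
  set b : ℕ → ℝ := fun i => (if i + 1 < N0 then (3 : ℝ) ^ i else 0) + (15 / 19) ^ i with hb
  have hb0 : ∀ i, 0 ≤ b i := by
    intro i
    simp only [hb]
    split_ifs <;> positivity
  have key : ∀ w : List ℕ, Nice N0 w → (Wo w : ℝ) ≤ (∑ i ∈ range w.length, b i) * 2 ^ w.sum := by
    intro w
    induction w using List.reverseRecOn with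
    | nil => intro _; simp [Wo]
    | append_singleton w e ih =>
      intro hw
      have hw' : Nice N0 w := by
        have := hw.take w.length
        rwa [List.take_left] at this
      have h1 := ih hw'
      rw [Wo_append]
      have hWe : Wo [e] = 1 := by simp [Wo]
      have hsum : (w ++ [e]).sum = w.sum + e := by simp
      have hlen : (w ++ [e]).length = w.length + 1 := by simp
      rw [hWe, hsum, hlen, Finset.sum_range_succ]
      have h3 : (3 : ℝ) ^ w.length ≤ b w.length * 2 ^ (w.sum + e) := by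
        simp only [hb]
        split_ifs with hc
        · have : (1 : ℝ) ≤ 2 ^ (w.sum + e) := one_le_pow₀ (by norm_num)
          have h0 : (0 : ℝ) ≤ (15 / 19) ^ w.length := by positivity
          have h1 : (0 : ℝ) < 3 ^ w.length := by positivity
          nlinarith
        · have hn := hw.sum (by rw [hlen]; omega)
          rw [hlen, hsum] at hn
          have h4 := two_ge hn.1
          have h5 : (3 : ℝ) ^ w.length ≤ (15 / 19) ^ w.length * (19 / 5) ^ (w.length + 1) := by
            have : (0 : ℝ) < 3 ^ w.length := by positivity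
            rw [pow_succ, ← mul_assoc, ← mul_pow, show (15 / 19 : ℝ) * (19 / 5) = 3 by norm_num]
            linarith
          rw [zero_add]
          exact h5.trans (mul_le_mul_of_nonneg_left h4 (by positivity))
      push_cast
      simp only [List.sum_cons, List.sum_nil, add_zero, mul_one]
      calc (2 : ℝ) ^ e * (Wo w : ℝ) + 3 ^ w.length
          ≤ 2 ^ e * ((∑ i ∈ range w.length, b i) * 2 ^ w.sum)
            + b w.length * 2 ^ (w.sum + e) := by gcongr
        _ = _ := by rw [pow_add]; ring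
  have hbsum : ∀ n : ℕ, ∑ i ∈ range n, b i ≤ ∑ i ∈ range N0, (3 : ℝ) ^ i + 19 / 4 := by
    intro n
    simp only [hb]
    rw [Finset.sum_add_distrib]
    apply add_le_add
    · rw [← Finset.sum_filter]
      apply Finset.sum_le_sum_of_subset_of_nonneg
      · intro i hi
        rw [Finset.mem_filter] at hi
        rw [mem_range]
        omega
      · intros; positivity
    · rw [geom_sum_eq (by norm_num)]
      have : (0 : ℝ) ≤ (15 / 19) ^ n := by positivity
      rw [div_le_iff_of_neg (by norm_num)]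
      nlinarith
  refine ⟨∑ i ∈ range N0, (3 : ℝ) ^ i + 19 / 4, ?_, ?_⟩
  · have : (0 : ℝ) ≤ ∑ i ∈ range N0, (3 : ℝ) ^ i := Finset.sum_nonneg fun _ _ => by positivity
    linarith
  · intro w hw
    refine (key w hw).trans ?_
    gcongr
    exact hbsum _

/-- the value attached to a word: minus `3^n` times the endpoint -/
def val (x : ℤ) (w : List ℕ) : ℤ := (Wo w : ℤ) - 2 ^ w.sum * x

lemma val_append (x : ℤ) (u v : List ℕ) :
    val x (u ++ v) = 2 ^ v.sum * val x u + 3 ^ u.length * (Wo v : ℤ) := by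
  unfold val
  rw [Wo_append, List.sum_append, pow_add]
  push_cast
  ring

lemma val_dvd (x : ℤ) (w : List ℕ) (n : ℕ) :
    (3 : ℤ) ^ n ∣ val x w ↔ (3 : ℤ) ^ n ∣ 2 ^ w.sum * x - Wo w := by
  unfold val
  rw [← dvd_neg, neg_sub]

lemma two_pow_dvd_cancel {n t : ℕ} {a : ℤ} (h : (3 : ℤ) ^ n ∣ 2 ^ t * a) : (3 : ℤ) ^ n ∣ a := by
  have : IsCoprime ((3 : ℤ) ^ n) (2 ^ t) := by
    apply IsCoprime.pow
    exact ⟨1, -1, by norm_num⟩
  exact this.dvd_of_dvd_mul_left h

lemma mem_FWT {A k T : ℕ} {w : List ℕ} : w ∈ FWT A k T ↔ w ∈ FW A k ∧ w.sum = T := by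
  unfold FWT
  rw [Finset.mem_filter]

/-- counting nice words of given length and size whose offset is in a class -/
lemma card_class {N0 : ℕ} {C : ℝ} (hC : ∀ w : List ℕ, Nice N0 w → (Wo w : ℝ) ≤ C * 2 ^ w.sum)
    (A a T L : ℕ) (s : Finset (List ℕ)) (hs : ∀ w ∈ s, w ∈ FWT A a T ∧ Nice N0 w)
    (hc : ∀ w ∈ s, ∀ w' ∈ s, (3 : ℤ) ^ L ∣ (Wo w : ℤ) - Wo w') :
    (s.card : ℝ) ≤ C * 2 ^ T / 3 ^ L + 1 := by
  have hC0 : 0 ≤ C * 2 ^ T ∨ s = ∅ := by
    rcases s.eq_empty_or_nonempty with h | ⟨w, hw⟩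
    · exact Or.inr h
    · left
      have h1 := hC w (hs w hw).2
      rw [(mem_FWT.1 (hs w hw).1).2] at h1
      exact le_trans (by positivity) h1
  rcases hC0 with hC0 | rfl
  swap
  · simp
    by_contra hneg
    push Not at hneg
    -- the bound is trivial when the set is empty and the constant nonnegative
    have h1 := hC [] (by
      intro i hi hl
      simp at hl
      subst hl
      simp)
    simp [Wo] at h1
    have : 0 ≤ C * 2 ^ T / 3 ^ L := by positivity
    linarith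
  have hinj : Set.InjOn (fun w : List ℕ => Wo w / 3 ^ L) (s : Set (List ℕ)) := by
    intro w hw w' hw' he
    simp only at he
    have h1 := hc w hw w' hw'
    have h2 : Wo w % 3 ^ L = Wo w' % 3 ^ L := by
      have h3 : (Wo w : ℤ) ≡ (Wo w' : ℤ) [ZMOD ((3 ^ L : ℕ) : ℤ)] := by
        apply Int.ModEq.symm
        rw [Int.modEq_iff_dvd]
        push_cast
        exact h1
      exact (Int.natCast_modEq_iff).1 h3
    have h3 : Wo w = Wo w' := by
      rw [← Nat.div_add_mod (Wo w) (3 ^ L), ← Nat.div_add_mod (Wo w') (3 ^ L), he, h2]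
    have m1 := mem_FWT.1 (hs w hw).1
    have m2 := mem_FWT.1 (hs w' hw').1
    have f1 := mem_FW.1 m1.1
    have f2 := mem_FW.1 m2.1
    exact Wo_inj (fun e he => (f1.2 e he).1) (fun e he => (f2.2 e he).1) (by rw [f1.1, f2.1])
      (by rw [m1.2, m2.2]) h3
  have hmaps : ∀ w ∈ s, (fun w : List ℕ => Wo w / 3 ^ L) w
      ∈ range (⌊C * 2 ^ T / 3 ^ L⌋₊ + 1) := by
    intro w hw
    rw [mem_range, Nat.lt_succ_iff, Nat.le_floor_iff (by positivity)]
    have h1 := hC w (hs w hw).2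
    rw [(mem_FWT.1 (hs w hw).1).2] at h1
    have h2 : ((Wo w / 3 ^ L : ℕ) : ℝ) ≤ (Wo w : ℝ) / ((3 ^ L : ℕ) : ℝ) := Nat.cast_div_le
    refine h2.trans ?_
    push_cast
    gcongr
  have := Finset.card_le_card_of_injOn _ hmaps hinj
  rw [card_range] at this
  have h3 : (s.card : ℝ) ≤ ((⌊C * 2 ^ T / 3 ^ L⌋₊ + 1 : ℕ) : ℝ) := by exact_mod_cast this
  refine h3.trans ?_
  push_cast
  have := Nat.floor_le (a := C * 2 ^ T / 3 ^ L) (by positivity)
  linarith

open scoped Classical in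
lemma cnt_nice_le {N0 : ℕ} {C : ℝ} (hC : ∀ w : List ℕ, Nice N0 w → (Wo w : ℝ) ≤ C * 2 ^ w.sum)
    (A a T L : ℕ) (x c : ℤ) :
    cnt ((FWT A a T).filter (Nice N0)) (fun _ => (1 : ℝ)) (val x) L c ≤ C * 2 ^ T / 3 ^ L + 1 := by
  unfold cnt
  rw [← Finset.sum_filter, Finset.sum_const, nsmul_eq_mul, mul_one]
  apply card_class hC A a T L
  · intro w hw
    rw [Finset.mem_filter, Finset.mem_filter] at hw
    exact ⟨hw.1.1, hw.1.2⟩
  · intro w hw w' hw'
    rw [Finset.mem_filter, Finset.mem_filter] at hw hw'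
    have h1 := dvd_sub hw.2 hw'.2
    unfold val at h1
    rw [(mem_FWT.1 hw.1.1).2, (mem_FWT.1 hw'.1.1).2] at h1
    have e : (Wo w : ℤ) - 2 ^ T * x - c - ((Wo w' : ℤ) - 2 ^ T * x - c) = (Wo w : ℤ) - Wo w' := by
      ring
    rwa [e] at h1

end Pool.Agent.H320R2.PD
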