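import Pool.Agent.H33.G.R_seed8.H320R2.PDQ1

/-!
Quenched estimates, part 2: mass of collections of valid words, for every root.
-/

set_option autoImplicit false
set_option linter.unusedVariables false

namespace Pool.Agent.H320R2.PD

open Finset Real

lemma wwt_eq (w : List ℕ) : wwt w = 1 / 2 ^ w.sum := by unfold wwt; rw [one_div_pow]

open scoped Classical in
/-- weighted mass of the words satisfying `σ` and valid at `x` -/
noncomputable def ms (A n : ℕ) (x : ℤ) (σ : List ℕ → Prop) : ℝ :=
  ∑ w ∈ (FW A n).filter (fun w => σ w ∧ (3 : ℤ) ^ n ∣ val x w), (3 : ℝ) ^ n * wwt w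

open scoped Classical in
lemma ms_nonneg (A n : ℕ) (x : ℤ) (σ : List ℕ → Prop) : 0 ≤ ms A n x σ :=
  Finset.sum_nonneg fun w _ => by have := wwt_pos w; positivity

open scoped Classical in
lemma ms_union {A n : ℕ} {x : ℤ} {σ : List ℕ → Prop} {ι : Type*} (I : Finset ι)
    (τ : ι → List ℕ → Prop) (h : ∀ w ∈ FW A n, σ w → ∃ i ∈ I, τ i w) :
    ms A n x σ ≤ ∑ i ∈ I, ms A n x (τ i) := by
  unfold ms
  simp_rw [Finset.sum_filter]
  rw [Finset.sum_comm]
  apply Finset.sum_le_sum
  intro w hw
  have hpos : 0 ≤ (3 : ℝ) ^ n * wwt w := by have := wwt_pos w; positivity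
  split_ifs with h1
  · obtain ⟨i, hi, hτ⟩ := h w hw h1.1
    refine le_trans (le_of_eq ?_) (Finset.single_le_sum (f := fun i =>
      if τ i w ∧ (3 : ℤ) ^ n ∣ val x w then (3 : ℝ) ^ n * wwt w else 0) ?_ hi)
    · rw [if_pos ⟨hτ, h1.2⟩]
    · intro i _
      split_ifs
      · exact hpos
      · exact le_rfl
  · apply Finset.sum_nonneg
    intro i _
    split_ifs
    · exact hpos
    · exact le_rfl

lemma take_app {u v : List ℕ} {a : ℕ} (h : u.length = a) : (u ++ v).take a = u := by
  subst h; simp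

lemma drop_app {u v : List ℕ} {a : ℕ} (h : u.length = a) : (u ++ v).drop a = v := by
  subst h; simp

open scoped Classical in
/-- the mass of words nice up to `a`, then in a collection, is at most a polynomial times the
annealed mass of the collection; for every root -/
lemma ms_le {N0 : ℕ} {C : ℝ} (hC1 : 1 ≤ C)
    (hC : ∀ w : List ℕ, Nice N0 w → (Wo w : ℝ) ≤ C * 2 ^ w.sum)
    (A a l : ℕ) (x : ℤ) (hN : N0 ≤ a) (hL : 5 * (a + l) ≤ 6 * a) (τ : List ℕ → Prop) :
    ms A (a + l) x (fun w => Nice N0 (w.take a) ∧ τ (w.drop a))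
      ≤ (C + 1) * (3 * a + 1) * ∑ v ∈ (FW A l).filter τ, wwt v := by
  unfold ms
  rw [Finset.sum_filter, sum_FW_add, Finset.sum_comm, Finset.sum_filter, Finset.mul_sum]
  apply Finset.sum_le_sum
  intro v hv
  by_cases hτ : τ v
  swap
  · rw [if_neg hτ, mul_zero]
    apply le_of_eq
    apply Finset.sum_eq_zero
    intro u hu
    rw [if_neg]
    rintro ⟨⟨_, h⟩, _⟩
    rw [drop_app (mem_FW.1 hu).1] at h
    exact hτ h
  rw [if_pos hτ]
  -- rewrite the inner sum
  suffices hmain : ∑ u ∈ (FW A a).filter (fun u => Nice N0 u ∧ (3 : ℤ) ^ (a + l) ∣ val x (u ++ v)),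
        (3 : ℝ) ^ (a + l) * wwt u ≤ (C + 1) * (3 * a + 1) by
    refine le_trans (le_of_eq ?_) (mul_le_mul_of_nonneg_right hmain (wwt_pos v).le)
    rw [Finset.sum_mul, Finset.sum_filter]
    refine Finset.sum_congr rfl fun u hu => ?_
    beta_reduce
    rw [take_app (mem_FW.1 hu).1, drop_app (mem_FW.1 hu).1]
    by_cases h1 : Nice N0 u ∧ (3 : ℤ) ^ (a + l) ∣ val x (u ++ v)
    · rw [if_pos ⟨⟨h1.1, hτ⟩, h1.2⟩, if_pos h1, wwt_append]
      ring
    · rw [if_neg (fun h => h1 ⟨h.1.1, h.2⟩), if_neg h1]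
  set S := (FW A a).filter (fun u => Nice N0 u ∧ (3 : ℤ) ^ (a + l) ∣ val x (u ++ v)) with hS
  have hmaps : ∀ u ∈ S, u.sum ∈ range (3 * a + 1) := by
    intro u hu
    rw [hS, Finset.mem_filter] at hu
    have hlen := (mem_FW.1 hu.1).1
    have := hu.2.1.sum (by rw [hlen]; exact hN)
    rw [hlen] at this
    rw [mem_range]
    omega
  rw [← Finset.sum_fiberwise_of_maps_to hmaps]
  have hfib : ∀ T ∈ range (3 * a + 1), ∑ u ∈ S with u.sum = T, (3 : ℝ) ^ (a + l) * wwt u
      ≤ C + 1 := by
    intro T _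
    rcases (S.filter fun u => u.sum = T).eq_empty_or_nonempty with hE | ⟨u0, hu0⟩
    · rw [hE, Finset.sum_empty]; linarith
    · have hT : (3 : ℝ) ^ (a + l) ≤ 2 ^ T := by
        rw [Finset.mem_filter, hS, Finset.mem_filter] at hu0
        have hlen := (mem_FW.1 hu0.1.1).1
        have := hu0.1.2.1.sum (by rw [hlen]; exact hN)
        rw [hlen, hu0.2] at this
        exact three_le_two this.1 hL
      have hconst : ∀ u ∈ S.filter (fun u => u.sum = T), (3 : ℝ) ^ (a + l) * wwt u
          = 3 ^ (a + l) / 2 ^ T := by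
        intro u hu
        rw [Finset.mem_filter] at hu
        rw [wwt_eq, hu.2]
        ring
      rw [Finset.sum_congr rfl hconst, Finset.sum_const, nsmul_eq_mul]
      have hcard := card_class hC A a T (a + l) (S.filter (fun u => u.sum = T))
        (by
          intro w hw
          rw [Finset.mem_filter, hS, Finset.mem_filter] at hw
          exact ⟨mem_FWT.2 ⟨hw.1.1, hw.2⟩, hw.1.2.1⟩)
        (by
          intro w hw w' hw'
          rw [Finset.mem_filter, hS, Finset.mem_filter] at hw hw'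
          have h1 := dvd_sub hw.1.2.2 hw'.1.2.2
          rw [val_append, val_append, (mem_FW.1 hw.1.1).1, (mem_FW.1 hw'.1.1).1] at h1
          have h2 : (3 : ℤ) ^ (a + l) ∣ 2 ^ v.sum * (val x w - val x w') := by
            have e : 2 ^ v.sum * val x w + 3 ^ a * (Wo v : ℤ)
                - (2 ^ v.sum * val x w' + 3 ^ a * (Wo v : ℤ))
                = 2 ^ v.sum * (val x w - val x w') := by ring
            rwa [e] at h1
          have h3 := two_pow_dvd_cancel h2
          unfold val at h3
          rw [hw.2, hw'.2] at h3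
          have e : (Wo w : ℤ) - 2 ^ T * x - ((Wo w' : ℤ) - 2 ^ T * x) = (Wo w : ℤ) - Wo w' := by
            ring
          rwa [e] at h3)
      have h3pos : (0 : ℝ) < 3 ^ (a + l) := by positivity
      have h2pos : (0 : ℝ) < 2 ^ T := by positivity
      calc ((S.filter (fun u => u.sum = T)).card : ℝ) * (3 ^ (a + l) / 2 ^ T)
          ≤ (C * 2 ^ T / 3 ^ (a + l) + 1) * (3 ^ (a + l) / 2 ^ T) := by gcongr
        _ = C + 3 ^ (a + l) / 2 ^ T := by field_simp
        _ ≤ C + 1 := by
          gcongr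
          rw [div_le_one h2pos]
          exact hT
  refine (Finset.sum_le_sum hfib).trans (le_of_eq ?_)
  rw [Finset.sum_const, card_range, nsmul_eq_mul]
  push_cast
  ring

open scoped Classical in
lemma prefix_tail (A k l : ℕ) {η : ℝ} (hη : 0 < η) (hη1 : η ≤ 1) :
    ∑ v ∈ (FW A (k + l)).filter (fun v => η * k ≤ |((v.take k).sum : ℝ) - 2 * k|), wwt v
      ≤ 2 * exp (-(η ^ 2 * k / 32)) := by
  rw [Finset.sum_filter, sum_FW_add]
  have h1 : ∀ u ∈ FW A k, ∑ v ∈ FW A l, (if η * k ≤ |(((u ++ v).take k).sum : ℝ) - 2 * k|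
      then wwt (u ++ v) else 0) ≤ if η * k ≤ |(u.sum : ℝ) - 2 * k| then wwt u else 0 := by
    intro u hu
    have hta : ∀ v : List ℕ, (u ++ v).take k = u := fun v => take_app (mem_FW.1 hu).1
    simp_rw [hta]
    split_ifs with h
    · simp_rw [wwt_append]
      rw [← Finset.mul_sum]
      exact mul_le_of_le_one_right (wwt_pos u).le (sum_wwt_le A l)
    · simp
  refine (Finset.sum_le_sum h1).trans ?_
  rw [← Finset.sum_filter]
  have := tail A k hη hη1
  convert this using 2
  
open scoped Classical in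
/-- mass of the words which are nice up to `n'` but not nice -/
lemma rem_le {N0 : ℕ} {C : ℝ} (hC1 : 1 ≤ C)
    (hC : ∀ w : List ℕ, Nice N0 w → (Wo w : ℝ) ≤ C * 2 ^ w.sum)
    (A a n' L : ℕ) (x : ℤ) (hN : N0 ≤ a) (h1 : a ≤ n') (h2 : n' ≤ L) (hL : 5 * L ≤ 6 * a) :
    ms A L x (fun w => Nice N0 (w.take n') ∧ ¬ Nice N0 w)
      ≤ (L - n' : ℕ) * ((C + 1) * (3 * a + 1) * (2 * exp (-(((n' - a : ℕ) : ℝ) / 12800)))) := by
  obtain ⟨l, rfl⟩ := Nat.exists_eq_add_of_le (h1.trans h2)
  set τ : ℕ → List ℕ → Prop := fun i v =>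
    (1 / 20 : ℝ) * ((i - a : ℕ) : ℝ) ≤ |((v.take (i - a)).sum : ℝ) - 2 * ((i - a : ℕ) : ℝ)| with hτ
  have hU : ms A (a + l) x (fun w => Nice N0 (w.take n') ∧ ¬ Nice N0 w)
      ≤ ∑ i ∈ Ioc n' (a + l), ms A (a + l) x (fun w => Nice N0 (w.take a) ∧ τ i (w.drop a)) := by
    apply ms_union
    intro w hw ⟨hn, hnn⟩
    have hlen := (mem_FW.1 hw).1
    unfold Nice at hnn
    push Not at hnn
    obtain ⟨i, hi0, hi1, hi2⟩ := hnn
    have hin : n' < i := by
      by_contra hc
      push Not at hc
      have h3 := hn i hi0 (by rw [List.length_take, hlen]; omega)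
      rw [List.take_take, min_eq_left hc] at h3
      have := hi2 h3.1
      omega
    refine ⟨i, Finset.mem_Ioc.2 ⟨hin, by omega⟩, ?_, ?_⟩
    · have := hn.take a
      rwa [List.take_take, min_eq_left h1] at this
    · simp only [hτ]
      -- the size of the first a letters
      have hna : Nice N0 (w.take a) := by
        have := hn.take a
        rwa [List.take_take, min_eq_left h1] at this
      have hs := hna.sum (by rw [List.length_take, hlen]; omega)
      have hla : (w.take a).length = a := by rw [List.length_take, hlen]; omega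
      rw [hla] at hs
      have hsplit : (w.take i).sum = (w.take a).sum + ((w.drop a).take (i - a)).sum := by
        have : w.take i = w.take a ++ (w.drop a).take (i - a) := by
          conv_lhs => rw [show i = a + (i - a) by omega, List.take_add]
        rw [this, List.sum_append]
      set s1 := (w.take a).sum
      set s2 := ((w.drop a).take (i - a)).sum
      rw [hsplit] at hi2
      set k := i - a with hk
      have hik : i = a + k := by omega
      rw [hik] at hi2
      rcases Nat.lt_or_ge (20 * s2) (39 * k) with hlt | hge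
      · have : ((20 * s2 : ℕ) : ℝ) < ((39 * k : ℕ) : ℝ) := by exact_mod_cast hlt
        push_cast at this
        rw [abs_of_neg (by linarith [(by positivity : (0 : ℝ) ≤ (k : ℝ))])]
        linarith
      · have h3 := hi2 (by omega)
        have h4 : 41 * k < 20 * s2 := by omega
        have : ((41 * k : ℕ) : ℝ) < ((20 * s2 : ℕ) : ℝ) := by exact_mod_cast h4
        push_cast at this
        rw [abs_of_pos (by linarith [(by positivity : (0 : ℝ) ≤ (k : ℝ))])]
        linarith
  refine hU.trans ?_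
  have hterm : ∀ i ∈ Ioc n' (a + l), ms A (a + l) x (fun w => Nice N0 (w.take a) ∧ τ i (w.drop a))
      ≤ (C + 1) * (3 * a + 1) * (2 * exp (-(((n' - a : ℕ) : ℝ) / 12800))) := by
    intro i hi
    rw [Finset.mem_Ioc] at hi
    refine (ms_le hC1 hC A a l x hN hL (τ i)).trans ?_
    refine mul_le_mul_of_nonneg_left ?_ (by positivity)
    have h3 := prefix_tail A (i - a) (l - (i - a)) (η := 1 / 20) (by norm_num) (by norm_num)
    rw [show i - a + (l - (i - a)) = l by omega] at h3
    refine le_trans (le_of_eq ?_) (h3.trans ?_)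
    · rfl
    · have h4 : ((n' - a : ℕ) : ℝ) ≤ ((i - a : ℕ) : ℝ) := by
        exact_mod_cast (by omega : n' - a ≤ i - a)
      refine mul_le_mul_of_nonneg_left (exp_le_exp.2 ?_) (by norm_num)
      nlinarith
  refine (Finset.sum_le_sum hterm).trans (le_of_eq ?_)
  rw [Finset.sum_const, Nat.card_Ioc, nsmul_eq_mul]

end Pool.Agent.H320R2.PD
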