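import Pool.Agent.H33.G.R_seed8.H320R2.PDQ3

/-!
Quenched estimates, part 4: grouping by sizes and the one step inequality.
-/

set_option autoImplicit false
set_option linter.unusedVariables false

namespace Pool.Agent.H320R2.PD

open Finset Real

open scoped Classical in
/-- nice words of length `a` and size `T` -/
noncomputable def Sn (N0 A a T : ℕ) : Finset (List ℕ) := (FWT A a T).filter (Nice N0)

open scoped Classical in
lemma mem_Sn {N0 A a T : ℕ} {w : List ℕ} :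
    w ∈ Sn N0 A a T ↔ (w ∈ FW A a ∧ w.sum = T) ∧ Nice N0 w := by
  unfold Sn
  rw [Finset.mem_filter, mem_FWT]

open scoped Classical in
lemma group {N0 : ℕ} (A a m : ℕ) (hN : N0 ≤ a) (G : List ℕ → ℝ) :
    ∑ w ∈ (FW A (a + m)).filter (fun w => Nice N0 (w.take a)), G w
      = ∑ T ∈ range (3 * a + 1), ∑ t ∈ range (m * A + 1),
          ∑ p ∈ Sn N0 A a T ×ˢ FWT A m t, G (p.1 ++ p.2) := by
  rw [Finset.sum_filter, sum_FW_add]
  have h0 : ∑ u ∈ FW A a, ∑ v ∈ FW A m, (if Nice N0 ((u ++ v).take a) then G (u ++ v) else 0)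
      = ∑ u ∈ (FW A a).filter (Nice N0), ∑ v ∈ FW A m, G (u ++ v) := by
    rw [Finset.sum_filter]
    refine Finset.sum_congr rfl fun u hu => ?_
    have hta : ∀ v : List ℕ, (u ++ v).take a = u := fun v => take_app (mem_FW.1 hu).1
    simp_rw [hta]
    split_ifs
    · rfl
    · simp
  rw [h0]
  have hmaps : ∀ u ∈ (FW A a).filter (Nice N0), u.sum ∈ range (3 * a + 1) := by
    intro u hu
    rw [Finset.mem_filter] at hu
    have hlen := (mem_FW.1 hu.1).1
    have := hu.2.sum (by rw [hlen]; exact hN)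
    rw [hlen] at this
    rw [mem_range]
    omega
  rw [← Finset.sum_fiberwise_of_maps_to hmaps]
  refine Finset.sum_congr rfl fun T _ => ?_
  have hS : ((FW A a).filter (Nice N0)).filter (fun u => u.sum = T) = Sn N0 A a T := by
    unfold Sn FWT
    rw [Finset.filter_comm]
  rw [hS]
  have hprod : ∀ t : ℕ, ∑ p ∈ Sn N0 A a T ×ˢ FWT A m t, G (p.1 ++ p.2)
      = ∑ u ∈ Sn N0 A a T, ∑ v ∈ FWT A m t, G (u ++ v) := fun t => Finset.sum_product _ _ _
  simp_rw [hprod]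
  conv_rhs => rw [Finset.sum_comm]
  refine Finset.sum_congr rfl fun u _ => ?_
  have hmaps2 : ∀ v ∈ FW A m, v.sum ∈ range (m * A + 1) := by
    intro v hv
    rw [mem_range]
    have := (sum_le_of_mem hv).2
    omega
  exact (Finset.sum_fiberwise_of_maps_to hmaps2 (fun v => G (u ++ v))).symm

open scoped Classical in
/-- counting function of the pairs (nice word of size `T`, free word of size `t`) -/
noncomputable def PP (N0 A a m : ℕ) (x : ℤ) (T t M : ℕ) (c : ℤ) : ℝ :=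
  cnt (Sn N0 A a T ×ˢ FWT A m t) (fun p => 1 * wwt p.2)
    (fun p => 2 ^ t * val x p.1 + 3 ^ a * ((Wo p.2 : ℕ) : ℤ)) M c

open scoped Classical in
lemma group_cnt {N0 : ℕ} (A a m : ℕ) (x : ℤ) (hN : N0 ≤ a) (M : ℕ) (c : ℤ) (φ : ℕ → ℝ) :
    ∑ w ∈ (FW A (a + m)).filter (fun w => Nice N0 (w.take a)),
        (if (3 : ℤ) ^ M ∣ val x w - c then 3 ^ (a + m) / 2 ^ w.sum * φ w.sum else 0)
      = ∑ T ∈ range (3 * a + 1), ∑ t ∈ range (m * A + 1),
          3 ^ (a + m) / 2 ^ T * PP N0 A a m x T t M c * φ (T + t) := by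
  rw [group A a m hN]
  refine Finset.sum_congr rfl fun T _ => Finset.sum_congr rfl fun t _ => ?_
  unfold PP cnt
  rw [Finset.mul_sum, Finset.sum_mul]
  refine Finset.sum_congr rfl fun p hp => ?_
  rw [Finset.mem_product, mem_Sn, mem_FWT] at hp
  obtain ⟨⟨⟨h1, h2⟩, h3⟩, h4, h5⟩ := hp
  rw [val_append, List.sum_append, h2, h5, (mem_FW.1 h1).1]
  by_cases hd : (3 : ℤ) ^ M ∣ 2 ^ t * val x p.1 + 3 ^ a * (Wo p.2 : ℤ) - c
  · rw [if_pos hd, if_pos hd]
    dsimp only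
    rw [wwt_eq, h5, pow_add 2 T t]
    field_simp
  · rw [if_neg hd, if_neg hd]
    simp

open scoped Classical in
/-- quenched sum over the words which are nice up to `a` only -/
noncomputable def Ua (N0 a A n : ℕ) (x : ℤ) (f : ℕ → ℝ) : ℝ :=
  ∑ w ∈ (FW A n).filter (fun w => Nice N0 (w.take a)),
    if (3 : ℤ) ^ n ∣ val x w then (3 : ℝ) ^ n / 2 ^ w.sum * f w.sum else 0

open scoped Classical in
lemma Ua_eq {N0 : ℕ} (A a m : ℕ) (x : ℤ) (hN : N0 ≤ a) (f : ℕ → ℝ) :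
    Ua N0 a A (a + m) x f = ∑ T ∈ range (3 * a + 1), ∑ t ∈ range (m * A + 1),
          3 ^ (a + m) / 2 ^ T * PP N0 A a m x T t (a + m) 0 * f (T + t) := by
  rw [← group_cnt A a m x hN (a + m) 0 f]
  unfold Ua
  simp only [sub_zero]

lemma Wo_single (e : ℕ) : Wo [e] = 1 := by simp [Wo]

open scoped Classical in
lemma Ua_succ {N0 : ℕ} (A a m : ℕ) (x : ℤ) (hN : N0 ≤ a) (f : ℕ → ℝ) :
    Ua N0 a A (a + m + 1) x f = ∑ T ∈ range (3 * a + 1), ∑ t ∈ range (m * A + 1),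
          3 ^ (a + m) / 2 ^ T * ∑ e ∈ Icc 1 A, (1 / 2 : ℝ) ^ e * f (T + t + e) *
            (3 * PP N0 A a m x T t (a + m + 1) (ce (a + m) e)) := by
  have h1 : ∀ e ∈ Icc 1 A, ∑ w ∈ (FW A (a + m)).filter (fun w => Nice N0 (w.take a)),
        (if (3 : ℤ) ^ (a + m + 1) ∣ val x w - ce (a + m) e
          then 3 ^ (a + m) / 2 ^ w.sum * (3 * (1 / 2 : ℝ) ^ e * f (w.sum + e)) else 0)
      = ∑ T ∈ range (3 * a + 1), ∑ t ∈ range (m * A + 1),
          3 ^ (a + m) / 2 ^ T * PP N0 A a m x T t (a + m + 1) (ce (a + m) e)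
            * (3 * (1 / 2 : ℝ) ^ e * f (T + t + e)) :=
    fun e _ => group_cnt A a m x hN (a + m + 1) (ce (a + m) e)
      (fun s => 3 * (1 / 2 : ℝ) ^ e * f (s + e))
  have h2 : Ua N0 a A (a + m + 1) x f
      = ∑ e ∈ Icc 1 A, ∑ w ∈ (FW A (a + m)).filter (fun w => Nice N0 (w.take a)),
        (if (3 : ℤ) ^ (a + m + 1) ∣ val x w - ce (a + m) e
          then 3 ^ (a + m) / 2 ^ w.sum * (3 * (1 / 2 : ℝ) ^ e * f (w.sum + e)) else 0) := by
    unfold Ua
    rw [Finset.sum_filter, sum_FW_snoc, Finset.sum_comm]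
    refine Finset.sum_congr rfl fun e _ => ?_
    rw [Finset.sum_filter]
    refine Finset.sum_congr rfl fun w hw => ?_
    have hlen := (mem_FW.1 hw).1
    have ht : (w ++ [e]).take a = w.take a := by
      rw [List.take_append_of_le_length (by omega)]
    rw [ht]
    by_cases hn : Nice N0 (w.take a)
    swap
    · rw [if_neg hn, if_neg hn]
    rw [if_pos hn, if_pos hn]
    have hval : val x (w ++ [e]) = 2 ^ e * val x w + 3 ^ (a + m) := by
      rw [val_append, Wo_single, hlen]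
      simp
    rw [hval]
    have hs : (w ++ [e]).sum = w.sum + e := by simp
    by_cases hd : (3 : ℤ) ^ (a + m + 1) ∣ val x w - ce (a + m) e
    · rw [if_pos hd, if_pos ((valid_snoc _ _ _).2 hd), hs, pow_add 2 w.sum e, pow_succ 3 (a + m),
        one_div_pow]
      field_simp
    · rw [if_neg hd, if_neg (fun h => hd ((valid_snoc _ _ _).1 h))]
  rw [h2, Finset.sum_congr rfl h1, Finset.sum_comm]
  refine Finset.sum_congr rfl fun T _ => ?_
  rw [Finset.sum_comm]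
  refine Finset.sum_congr rfl fun t _ => ?_
  rw [Finset.mul_sum]
  refine Finset.sum_congr rfl fun e _ => ?_
  ring

/-- the discrepancy -/
noncomputable def RR (N0 A a m : ℕ) (x : ℤ) (T t : ℕ) : ℝ :=
  √(N3 (PP N0 A a m x T t (a + m + 1) 0) (PP N0 A a m x T t (a + m + 1) (0 + 3 ^ (a + m)))
    (PP N0 A a m x T t (a + m + 1) (0 + 2 * 3 ^ (a + m))))

noncomputable def EE1 (N0 A a m : ℕ) (x : ℤ) : ℝ :=
  ∑ T ∈ range (3 * a + 1), ∑ t ∈ range (m * A + 1), 3 ^ (a + m) / 2 ^ T * RR N0 A a m x T t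

lemma sum_half_le (A : ℕ) : ∑ e ∈ Icc 1 A, (1 / 2 : ℝ) ^ e ≤ 1 := by
  have h : ∑ e ∈ Icc 1 A, (1 / 2 : ℝ) ^ e = 1 - (1 / 2) ^ A := by
    induction A with
    | zero => simp
    | succ A ih =>
      rw [Finset.sum_Icc_succ_top (by omega), ih, pow_succ]
      ring
  rw [h]
  have : (0 : ℝ) < (1 / 2) ^ A := by positivity
  linarith

open scoped Classical in
/-- one step -/
lemma Ua_step {N0 : ℕ} (A a m : ℕ) (x : ℤ) (hN : N0 ≤ a) {B : ℝ} (hB : 0 ≤ B) (f : ℕ → ℝ)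
    (hf : ∀ t, 0 ≤ f t ∧ f t ≤ B) :
    Ua N0 a A (a + m) x (fun t => ∑ e ∈ Icc 1 A, (1 / 2 : ℝ) ^ e * f (t + e))
      ≤ Ua N0 a A (a + m + 1) x f + 2 * B * EE1 N0 A a m x := by
  rw [Ua_eq A a m x hN, Ua_succ A a m x hN, EE1, Finset.mul_sum, ← Finset.sum_add_distrib]
  apply Finset.sum_le_sum
  intro T _
  rw [Finset.mul_sum, ← Finset.sum_add_distrib]
  apply Finset.sum_le_sum
  intro t _
  have hpos : (0 : ℝ) ≤ 3 ^ (a + m) / 2 ^ T := by positivity
  have key : PP N0 A a m x T t (a + m) 0 * ∑ e ∈ Icc 1 A, (1 / 2 : ℝ) ^ e * f (T + t + e)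
      ≤ ∑ e ∈ Icc 1 A, (1 / 2 : ℝ) ^ e * f (T + t + e) *
            (3 * PP N0 A a m x T t (a + m + 1) (ce (a + m) e)) + 2 * B * RR N0 A a m x T t := by
    have h1 : ∀ e ∈ Icc 1 A, PP N0 A a m x T t (a + m) 0 * ((1 / 2 : ℝ) ^ e * f (T + t + e))
        ≤ (1 / 2 : ℝ) ^ e * f (T + t + e) *
            (3 * PP N0 A a m x T t (a + m + 1) (ce (a + m) e))
          + (1 / 2 : ℝ) ^ e * (2 * B * RR N0 A a m x T t) := by
      intro e _
      have h2 := step_le (s := Sn N0 A a T ×ˢ FWT A m t) (wt := fun p => 1 * wwt p.2)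
        (fun p => 2 ^ t * val x p.1 + 3 ^ a * ((Wo p.2 : ℕ) : ℤ)) (a + m) e
        (fun p _ => by simp only [one_mul]; exact (wwt_pos _).le)
      have h3 : PP N0 A a m x T t (a + m) 0 - 3 * PP N0 A a m x T t (a + m + 1) (ce (a + m) e)
          ≤ 2 * RR N0 A a m x T t := h2
      have hR : 0 ≤ RR N0 A a m x T t := Real.sqrt_nonneg _
      have hf1 := (hf (T + t + e)).1
      have hf2 := (hf (T + t + e)).2
      have he : (0 : ℝ) < (1 / 2) ^ e := by positivity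
      have h4 : f (T + t + e) * (PP N0 A a m x T t (a + m) 0
          - 3 * PP N0 A a m x T t (a + m + 1) (ce (a + m) e)) ≤ B * (2 * RR N0 A a m x T t) :=
        (mul_le_mul_of_nonneg_left h3 hf1).trans (mul_le_mul_of_nonneg_right hf2 (by positivity))
      nlinarith [mul_le_mul_of_nonneg_left h4 he.le]
    rw [Finset.mul_sum]
    refine (Finset.sum_le_sum h1).trans ?_
    rw [Finset.sum_add_distrib, ← Finset.sum_mul]
    have hR : 0 ≤ 2 * B * RR N0 A a m x T t := by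
      have : 0 ≤ RR N0 A a m x T t := Real.sqrt_nonneg _
      positivity
    have := mul_le_mul_of_nonneg_right (sum_half_le A) hR
    rw [one_mul] at this
    linarith
  have := mul_le_mul_of_nonneg_left key hpos
  calc 3 ^ (a + m) / 2 ^ T * PP N0 A a m x T t (a + m) 0 *
        ∑ e ∈ Icc 1 A, (1 / 2 : ℝ) ^ e * f (T + t + e)
      = 3 ^ (a + m) / 2 ^ T * (PP N0 A a m x T t (a + m) 0 *
        ∑ e ∈ Icc 1 A, (1 / 2 : ℝ) ^ e * f (T + t + e)) := by ring
    _ ≤ _ := this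
    _ = _ := by ring

end Pool.Agent.H320R2.PD
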